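import Pool.Agent.ASG.Defs

set_option autoImplicit false

/-!
ASG-AnCov. A criterion for analytic topologies: if openness is a condition of the form
`for all n and all x in L n, if x is in A then some B n k contains x and is contained in A`, then
`topSet X` is Borel and not empty, hence a continuous image of the irrationals.
-/

namespace Pool.Agent.ASG

open Set Topology Filter

theorem an_cov {X : Type*} [TopologicalSpace X] [Countable X] (L : ℕ → Set X) (B : ℕ → ℕ → Set X)
    (hB : ∀ A : Set X, IsOpen A ↔ ∀ n, ∀ x ∈ L n, x ∈ A → ∃ k, x ∈ B n k ∧ B n k ⊆ A) :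
    IsAnalytic X := by
  classical
  let mX : MeasurableSpace (X → Bool) := borel _
  have bX : BorelSpace (X → Bool) := ⟨rfl⟩
  have heq : topSet X = ⋂ n, ⋂ x ∈ L n, ({φ : X → Bool | φ x = false} ∪
      ⋃ k, ⋃ (_ : x ∈ B n k), ⋂ y ∈ B n k, {φ : X → Bool | φ y = true}) := by
    ext φ
    simp only [topSet, mem_ofPred_eq, hB, mem_iInter, mem_union, mem_iUnion, exists_prop]
    refine forall_congr' fun n => forall_congr' fun x => forall_congr' fun _ => ?_
    cases hφ : φ x
    · simp
    · simp [subset_def]
  have hcl : ∀ (x : X) (c : Bool), MeasurableSet {φ : X → Bool | φ x = c} := by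
    intro x c
    have h1 : IsClosed {φ : X → Bool | φ x = c} :=
      isClosed_singleton.preimage (continuous_apply x)
    exact h1.measurableSet
  have pX : PolishSpace (X → Bool) := { }
  have hmeas : MeasurableSet (topSet X) := by
    rw [heq]
    refine MeasurableSet.iInter fun n => MeasurableSet.biInter (to_countable _) fun x _ => ?_
    refine (hcl x false).union (MeasurableSet.iUnion fun k => MeasurableSet.iUnion fun _ => ?_)
    exact MeasurableSet.biInter (to_countable _) fun y _ => hcl y true
  have han : MeasureTheory.AnalyticSet (topSet X) := hmeas.analyticSet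
  rw [MeasureTheory.AnalyticSet_def] at han
  rcases han with h0 | ⟨f, hf, hr⟩
  · exfalso
    have h1 : (fun _ : X => false) ∈ topSet X := by
      simp [topSet]
    rw [h0] at h1
    exact h1
  · exact ⟨f, hf, hr⟩

end Pool.Agent.ASG
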