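import Mathlib

set_option autoImplicit false

/-!
ASG-CpCt. A countable compact set of a Hausdorff space has a countable basis: for `x ≠ y` take disjoint open
sets `U x y`, `V x y` containing `x`, `y`; the finite intersections of the sets `U x y` for fixed `x` form a
basis at `x`, by compactness of `K \ A`.
-/

namespace Pool.Agent.ASG

open Set Topology Filter

theorem cp_ct {X : Type*} [TopologicalSpace X] [T2Space X] [Countable X] {K : Set X}
    (hK : IsCompact K) : ∃ O : ℕ → Set X, (∀ k, IsOpen (O k)) ∧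
      ∀ A : Set X, IsOpen A → ∀ x ∈ A ∩ K, ∃ k, x ∈ O k ∧ O k ∩ K ⊆ A := by
  rcases isEmpty_or_nonempty X with hX | hX
  · exact ⟨fun _ => ∅, fun _ => isOpen_empty, fun A _ x _ => (hX.false x).elim⟩
  have hsep : ∀ x y : X, ∃ U V : Set X, IsOpen U ∧ IsOpen V ∧ x ∈ U ∧
      (x ≠ y → y ∈ V ∧ Disjoint U V) := by
    intro x y
    by_cases h : x = y
    · exact ⟨univ, univ, isOpen_univ, isOpen_univ, mem_univ x, fun h' => absurd h h'⟩
    · obtain ⟨U, V, hU, hV, hx, hy, hd⟩ := t2_separation h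
      exact ⟨U, V, hU, hV, hx, fun _ => ⟨hy, hd⟩⟩
  choose U V hU hV hxU hyV using hsep
  obtain ⟨e, he⟩ := exists_surjective_nat (X × Finset X)
  refine ⟨fun k => ⋂ y ∈ (e k).2, U (e k).1 y, fun k => isOpen_biInter_finset fun y _ => hU _ _,
    ?_⟩
  intro A hA x hx
  have hne : ∀ y ∈ K \ A, x ≠ y := fun y hy h => hy.2 (h ▸ hx.1)
  obtain ⟨t, ht, hcov⟩ := (hK.diff hA).elim_nhds_subcover (fun y => V x y)
    fun y hy => (hV x y).mem_nhds (hyV x y (hne y hy)).1
  obtain ⟨k, hk⟩ := he (x, t)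
  refine ⟨k, ?_, ?_⟩
  · show x ∈ ⋂ y ∈ (e k).2, U (e k).1 y
    rw [hk]
    exact mem_iInter₂.2 fun y _ => hxU x y
  · rintro z ⟨hz, hzK⟩
    have hz' : z ∈ ⋂ y ∈ (e k).2, U (e k).1 y := hz
    rw [hk] at hz'
    by_contra hzA
    obtain ⟨y, hy, hzV⟩ := mem_iUnion₂.1 (hcov ⟨hzK, hzA⟩)
    exact disjoint_left.1 (hyV x y (hne y (ht y hy))).2 (mem_iInter₂.1 hz' y hy) hzV

end Pool.Agent.ASG
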