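import Pool.Agent.ASG.AnCov
import Pool.Agent.ASG.CpCt

set_option autoImplicit false

/-!
ASG-AnKom. Countable Hausdorff `k_ω` spaces are analytic: the images of the compact spaces have
countable bases, and a set is open if and only if its traces on them are.
-/

namespace Pool.Agent.ASG

open Set Topology Filter

theorem an_kom {X : Type} [TopologicalSpace X] [Countable X] [T2Space X] (h : IsKOmega X) :
    IsAnalytic X := by
  obtain ⟨K, tK, cK, q, hq⟩ := h
  have hc : ∀ n, Continuous (fun x : K n => q ⟨n, x⟩) := fun n =>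
    hq.continuous.comp continuous_sigmaMk
  have hL : ∀ n, IsCompact (range (fun x : K n => q ⟨n, x⟩)) := fun n =>
    isCompact_range (hc n)
  choose O hO1 hO2 using fun n => cp_ct (hL n)
  refine an_cov (fun n => range (fun x : K n => q ⟨n, x⟩))
    (fun n k => O n k ∩ range (fun x : K n => q ⟨n, x⟩)) ?_
  intro A
  constructor
  · intro hA n x hx hxA
    obtain ⟨k, hk1, hk2⟩ := hO2 n A hA x ⟨hxA, hx⟩
    exact ⟨k, ⟨hk1, hx⟩, hk2⟩
  · intro h
    rw [← hq.isOpen_preimage, isOpen_sigma_iff]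
    intro n
    have e : (Sigma.mk n ⁻¹' (q ⁻¹' A) : Set (K n)) =
        ⋃ k, ⋃ (_ : O n k ∩ range (fun x : K n => q ⟨n, x⟩) ⊆ A),
          (fun x : K n => q ⟨n, x⟩) ⁻¹' O n k := by
      ext x
      constructor
      · intro hx
        obtain ⟨k, hk1, hk2⟩ := h n (q ⟨n, x⟩) ⟨x, rfl⟩ hx
        exact mem_iUnion₂.2 ⟨k, hk2, hk1.1⟩
      · intro hx
        obtain ⟨k, hk, hx⟩ := mem_iUnion₂.1 hx
        exact hk ⟨hx, ⟨x, rfl⟩⟩
    rw [e]
    exact isOpen_iUnion fun k => isOpen_iUnion fun _ => (hO1 n k).preimage (hc n)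

end Pool.Agent.ASG
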