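import Pool.Agent.ASG.AnCov

set_option autoImplicit false

/-!
ASG-AnMet. Countable metrizable spaces are analytic: they are second countable, and the criterion `an_cov` applies
to a countable basis.
-/

namespace Pool.Agent.ASG

open Set Topology Filter

theorem an_met {X : Type*} [TopologicalSpace X] [Countable X]
    [TopologicalSpace.MetrizableSpace X] : IsAnalytic X := by
  have hs : SecondCountableTopology X := inferInstance
  obtain ⟨b, hb, _, hbb⟩ := TopologicalSpace.exists_countable_basis X
  obtain ⟨f, hf⟩ := (hb.insert ∅).exists_eq_range (Set.insert_nonempty _ _)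
  refine an_cov (fun _ => univ) (fun _ k => f k) fun A => ?_
  rw [hbb.isOpen_iff]
  constructor
  · intro h n x _ hx
    obtain ⟨t, ht, hxt, htA⟩ := h x hx
    have h1 : t ∈ range f := hf ▸ Set.mem_insert_of_mem _ ht
    obtain ⟨k, rfl⟩ := h1
    exact ⟨k, hxt, htA⟩
  · intro h x hx
    obtain ⟨k, hk, hkA⟩ := h 0 x (mem_univ x) hx
    have h1 : f k ∈ insert ∅ b := hf.symm ▸ mem_range_self k
    rcases Set.mem_insert_iff.1 h1 with h2 | h2
    · rw [h2] at hk
      exact absurd hk (Set.notMem_empty x)
    · exact ⟨f k, h2, hk, hkA⟩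

end Pool.Agent.ASG
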