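import Mathlib

set_option autoImplicit false

/-!
ASG-Cof. Countable ordinals are reached by increasing sequences: enumerate the smaller ordinals and
take the partial suprema.
-/

namespace Pool.Agent.ASG

open Set Topology Filter Ordinal

private theorem ctb {α : Ordinal.{0}} (h : α < ω₁) : (Set.Iio α).Countable := by
  have h1 : α.card < Cardinal.aleph 1 := by
    rw [← Cardinal.lt_ord, Cardinal.ord_aleph]
    exact h
  rw [Cardinal.lt_aleph_one_iff] at h1
  rw [← Cardinal.le_aleph0_iff_set_countable, Cardinal.mk_Iio_ordinal]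
  exact Cardinal.lift_le_aleph0.2 h1

theorem cof {α : Ordinal.{0}} (h : α < ω₁) (h0 : α ≠ 0) :
    ∃ a : ℕ → Ordinal.{0}, Monotone a ∧ (∀ k, a k < α) ∧ ∀ β < α, ∃ k, β ≤ a k := by
  have hne : (Set.Iio α).Nonempty := ⟨0, pos_iff_ne_zero.2 h0⟩
  obtain ⟨e, he⟩ := (ctb h).exists_eq_range hne
  refine ⟨partialSups e, (partialSups e).monotone, ?_, ?_⟩
  · intro k
    induction k with
    | zero =>
      have : e 0 ∈ Set.Iio α := he ▸ Set.mem_range_self 0
      simpa using this
    | succ k ih =>
      have : e (k + 1) ∈ Set.Iio α := he ▸ Set.mem_range_self (k + 1)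
      rw [partialSups_add_one]
      exact max_lt ih this
  · intro β hβ
    have h1 : β ∈ Set.range e := he ▸ hβ
    obtain ⟨k, rfl⟩ := h1
    exact ⟨k, le_partialSups e k⟩

end Pool.Agent.ASG
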