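import Pool.Agent.ASG.Defs

set_option autoImplicit false

/-!
In a countable regular space a set which contains no infinite set without accumulation points is
relatively compact.
-/

namespace Pool.Agent.ASG

open Set Topology Filter

theorem comp {X : Type*} [TopologicalSpace X] [T3Space X] [Countable X] {K : Set X} (h : ¬ NotC K) :
    IsCompact (closure K) := by
  classical
  refine isCompact_of_finite_subcover ?_
  intro ι U hUo hUc
  by_contra hno
  have hno' : ∀ t : Finset ι, ¬ closure K ⊆ ⋃ i ∈ t, U i := fun t ht => hno ⟨t, ht⟩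
  have hchoose : ∀ x : closure K, ∃ i : ι, ∃ O : Set X,
      IsOpen O ∧ (x : X) ∈ O ∧ closure O ⊆ U i := by
    intro x
    obtain ⟨i, hi⟩ := mem_iUnion.1 (hUc x.2)
    have hn : U i ∈ 𝓝 (x : X) := (hUo i).mem_nhds hi
    obtain ⟨V, hV, hVc, hVU⟩ := exists_mem_nhds_isClosed_subset hn
    exact ⟨i, interior V, isOpen_interior, mem_interior_iff_mem_nhds.2 hV,
      (closure_minimal interior_subset hVc).trans hVU⟩
  choose i O hOo hxO hOU using hchoose
  have hne : Nonempty (closure K) := by
    by_contra hemp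
    apply hno' ∅
    intro x hx
    exact absurd ⟨⟨x, hx⟩⟩ hemp
  obtain ⟨x, hx⟩ := exists_surjective_nat (closure K)
  let E : ℕ → Set X := fun n => ⋃ m ∈ Finset.range (n + 1), closure (O (x m))
  have hEc : ∀ n, IsClosed (E n) := fun n =>
    isClosed_biUnion_finset (fun m _ => isClosed_closure)
  have hEK : ∀ n, ∃ k, k ∈ K ∧ k ∉ E n := by
    intro n
    by_contra hcon
    have hcon' : K ⊆ E n := by
      intro z hz
      by_contra hzE
      exact hcon ⟨z, hz, hzE⟩
    have h1 : closure K ⊆ E n := closure_minimal hcon' (hEc n)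
    apply hno' ((Finset.range (n + 1)).image (fun m => i (x m)))
    intro z hz
    obtain ⟨m, hm, hzm⟩ := mem_iUnion₂.1 (h1 hz)
    exact mem_iUnion₂.2 ⟨i (x m), Finset.mem_image_of_mem _ hm, hOU _ hzm⟩
  choose k hkK hkE using hEK
  have hfar : ∀ m n, m ≤ n → k n ∉ O (x m) := by
    intro m n hmn hk
    exact hkE n (mem_iUnion₂.2 ⟨m, Finset.mem_range.2 (by omega), subset_closure hk⟩)
  apply h
  refine ⟨range k, ?_, ?_, ?_⟩
  · rintro _ ⟨n, rfl⟩
    exact hkK n
  · intro hfin
    have hg : ∀ d ∈ range k, ∃ m, ((x m : closure K) : X) = d := by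
      rintro _ ⟨n, rfl⟩
      obtain ⟨m, hm⟩ := hx ⟨k n, subset_closure (hkK n)⟩
      exact ⟨m, by rw [hm]⟩
    choose! g hg using hg
    obtain ⟨M, hM⟩ := (hfin.image g).bddAbove
    have hkM : k M ∈ range k := ⟨M, rfl⟩
    have h1 : g (k M) ≤ M := hM ⟨k M, hkM, rfl⟩
    apply hfar (g (k M)) M h1
    have h2 := hxO (x (g (k M)))
    rwa [hg (k M) hkM] at h2
  · intro z
    by_cases hz : z ∈ closure K
    · obtain ⟨m, hm⟩ := hx ⟨z, hz⟩
      have h2 := hxO (x m)
      have h3 : ((x m : closure K) : X) = z := by rw [hm]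
      rw [h3] at h2
      refine ⟨O (x m), (hOo _).mem_nhds h2, ?_⟩
      refine ((Set.finite_lt_nat m).image k).subset ?_
      rintro _ ⟨hO, n, rfl⟩
      refine ⟨n, ?_, rfl⟩
      by_contra hnm
      exact hfar m n (not_lt.1 hnm) hO
    · refine ⟨(closure K)ᶜ, isClosed_closure.isOpen_compl.mem_nhds hz, ?_⟩
      have : (closure K)ᶜ ∩ range k = ∅ := by
        rw [Set.eq_empty_iff_forall_notMem]
        rintro _ ⟨hO, n, rfl⟩
        exact hO (subset_closure (hkK n))
      rw [this]
      exact Set.finite_empty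


end Pool.Agent.ASG
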