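import Mathlib

set_option autoImplicit false

/-!
# Countable sequential groups with analytic topologies: definitions (project ASG, MP_a9e3cf_lc)
-/

namespace Pool.Agent.ASG

open Set Topology Filter

/-- the topology of `X` as a subset of `2 ^ X` -/
def topSet (X : Type*) [TopologicalSpace X] : Set (X → Bool) := {f | IsOpen {x | f x = true}}

/-- the topology of `X` is a continuous image of the irrationals -/
def IsAnalytic (X : Type*) [TopologicalSpace X] : Prop :=
  ∃ f : (ℕ → ℕ) → X → Bool, Continuous f ∧ range f = topSet X

/-- quotient image of a topological sum of countably many compact spaces -/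
def IsKOmega (X : Type) [TopologicalSpace X] : Prop :=
  ∃ (K : ℕ → Type) (_ : ∀ n, TopologicalSpace (K n)) (_ : ∀ n, CompactSpace (K n))
    (q : (Σ n, K n) → X), IsQuotientMap q

/-- a set without accumulation points (in a `T1` space: closed and discrete) -/
def CD {X : Type*} [TopologicalSpace X] (D : Set X) : Prop := ∀ x, ∃ U ∈ 𝓝 x, (U ∩ D).Finite

/-- contains an infinite set without accumulation points -/
def NotC {X : Type*} [TopologicalSpace X] (V : Set X) : Prop := ∃ D ⊆ V, D.Infinite ∧ CD D

/-- infinitely many `n`, for each of them infinitely many `m`, for each of them infinitely many `j` -/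
def Big (V : Set (ℕ × ℕ × ℕ)) : Prop :=
  ∃ᶠ n in atTop, ∃ᶠ m in atTop, ∃ᶠ j in atTop, (n, m, j) ∈ V

/-- the infinite set `C` is mapped by `p` to a sequence converging to `g` -/
def ConvTo {R G : Type*} [TopologicalSpace G] (p : R → G) (C : Set R) (g : G) : Prop :=
  C.Infinite ∧ ∀ O : Set G, IsOpen O → g ∈ O → (C \ p ⁻¹' O).Finite

/-- a family of sequences converging to `1` without convergent transversals -/
structure Fan {G : Type*} [Group G] [TopologicalSpace G] (y : ℕ → ℕ → G) : Prop where
  lim : ∀ n, Tendsto (y n) atTop (𝓝 1)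
  trans : ∀ n j : ℕ → ℕ, StrictMono n → ∃ W : Set G, IsOpen W ∧ 1 ∈ W ∧ ∀ i, y (n i) (j i) ∉ W

/-- infinite sets without accumulation points, every neighbourhood of `1` contains one of them -/
structure Net {G : Type*} [Group G] [TopologicalSpace G] (h : ℕ → ℕ → G) : Prop where
  inj : ∀ n, Function.Injective (h n)
  cd : ∀ n, CD (range (h n))
  small : ∀ O : Set G, IsOpen O → 1 ∈ O → ∃ n, ∀ m, h n m ∈ O

end Pool.Agent.ASG
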