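import Pool.Agent.ASG.Defs

set_option autoImplicit false

/-!
ASG-Dich. The dichotomy for analytic topologies.  `Small E`: countably many members of `P` suffice for the points of `E`.  If the set `Z` of the points `z` with
`g ∈ {x | f z x = true}` is small we are in the first case; otherwise the closed set `F` of the points of `Z` at which `Z` is nowhere small is not empty, and
the intersections over the traces of the basic open sets on `F` give the second case, by the Baire category theorem in `F`.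
-/

namespace Pool.Agent.ASG

open Set Topology Filter

private def Sm {G R : Type*} (f : (ℕ → ℕ) → G → Bool) (p : R → G) (P : Set R → Prop)
    (E : Set (ℕ → ℕ)) : Prop :=
  ∃ 𝒱 : Set (Set R), 𝒱.Countable ∧ (∀ V ∈ 𝒱, P V) ∧ ∀ z ∈ E, ∃ V ∈ 𝒱, V ⊆ p ⁻¹' {x | f z x = true}

private theorem Sm.mono {G R : Type*} {f : (ℕ → ℕ) → G → Bool} {p : R → G} {P : Set R → Prop}
    {E E' : Set (ℕ → ℕ)} (h : Sm f p P E) (hE : E' ⊆ E) : Sm f p P E' := by
  obtain ⟨𝒱, h1, h2, h3⟩ := h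
  exact ⟨𝒱, h1, h2, fun z hz => h3 z (hE hz)⟩

private theorem Sm.union {G R : Type*} {f : (ℕ → ℕ) → G → Bool} {p : R → G} {P : Set R → Prop}
    {E E' : Set (ℕ → ℕ)} (h : Sm f p P E) (h' : Sm f p P E') : Sm f p P (E ∪ E') := by
  obtain ⟨𝒱, h1, h2, h3⟩ := h
  obtain ⟨𝒲, h4, h5, h6⟩ := h'
  refine ⟨𝒱 ∪ 𝒲, h1.union h4, ?_, ?_⟩
  · rintro V (hV | hV)
    · exact h2 V hV
    · exact h5 V hV
  · rintro z (hz | hz)
    · obtain ⟨V, hV, hVz⟩ := h3 z hz
      exact ⟨V, Or.inl hV, hVz⟩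
    · obtain ⟨V, hV, hVz⟩ := h6 z hz
      exact ⟨V, Or.inr hV, hVz⟩

private theorem Sm.biUnion {G R : Type*} {f : (ℕ → ℕ) → G → Bool} {p : R → G} {P : Set R → Prop}
    {𝒰 : Set (Set (ℕ → ℕ))} (h0 : 𝒰.Countable) (E : Set (ℕ → ℕ) → Set (ℕ → ℕ))
    (h : ∀ U ∈ 𝒰, Sm f p P (E U)) : Sm f p P (⋃ U ∈ 𝒰, E U) := by
  choose! 𝒱 h1 h2 h3 using h
  refine ⟨⋃ U ∈ 𝒰, 𝒱 U, h0.biUnion h1, ?_, ?_⟩
  · intro V hV
    simp only [mem_iUnion] at hV
    obtain ⟨U, hU, hV⟩ := hV
    exact h2 U hU V hV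
  · intro z hz
    simp only [mem_iUnion] at hz
    obtain ⟨U, hU, hz⟩ := hz
    obtain ⟨V, hV, hVz⟩ := h3 U hU z hz
    refine ⟨V, ?_, hVz⟩
    simp only [mem_iUnion]
    exact ⟨U, hU, hV⟩

/-- the Baire category argument -/
private theorem baire_arg {G R : Type*} [TopologicalSpace G] {f : (ℕ → ℕ) → G → Bool}
    (hf : Continuous f) (p : R → G) {F : Set (ℕ → ℕ)} (hF : IsClosed F) (hne : F.Nonempty)
    {B : Set (Set (ℕ → ℕ))} (hB : TopologicalSpace.IsTopologicalBasis B) (C : Set R)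
    (hC : C.Infinite)
    (hV : ∀ U ∈ B, (U ∩ F).Nonempty → (C ∩ ⋂ z ∈ U ∩ F, p ⁻¹' {x | f z x = true}).Finite) :
    ∃ w ∈ F, ∀ k : ℕ, ∃ T : Finset R, T.card = k ∧ ∀ c ∈ T, c ∈ C ∧ f w (p c) = false := by
  classical
  haveI : PolishSpace F := hF.polishSpace
  haveI : Nonempty F := hne.to_subtype
  have hcont : ∀ x : G, Continuous fun z : ℕ → ℕ => f z x := fun x =>
    (continuous_apply x).comp hf
  have hop : ∀ x : G, IsOpen {z : ℕ → ℕ | f z x = false} := by
    intro x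
    exact (isOpen_discrete ({false} : Set Bool)).preimage (hcont x)
  let D : ℕ → Set F := fun k => {z | ∃ T : Finset R, T.card = k ∧ ∀ c ∈ T, c ∈ C ∧
    f (z : ℕ → ℕ) (p c) = false}
  have hDopen : ∀ k, IsOpen (D k) := by
    intro k
    have h1 : D k = ⋃ T : {T : Finset R // T.card = k ∧ ∀ c ∈ T, c ∈ C}, ⋂ c ∈ T.1,
        (Subtype.val : F → ℕ → ℕ) ⁻¹' {z | f z (p c) = false} := by
      ext z
      simp only [D, mem_setOf_eq, mem_iUnion, mem_iInter, mem_preimage, Subtype.exists]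
      constructor
      · rintro ⟨T, h1, h2⟩
        exact ⟨T, ⟨h1, fun c hc => (h2 c hc).1⟩, fun c hc => (h2 c hc).2⟩
      · rintro ⟨T, ⟨h1, h2⟩, h3⟩
        exact ⟨T, h1, fun c hc => ⟨h2 c hc, h3 c hc⟩⟩
    rw [h1]
    refine isOpen_iUnion fun T => ?_
    refine isOpen_biInter_finset fun c _ => ?_
    exact (hop (p c)).preimage continuous_subtype_val
  have hstep : ∀ k, ∀ O : Set (ℕ → ℕ), IsOpen O → (O ∩ F).Nonempty → ∃ z ∈ O ∩ F,
      ∃ T : Finset R, T.card = k ∧ ∀ c ∈ T, c ∈ C ∧ f z (p c) = false := by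
    intro k
    induction k with
    | zero =>
      rintro O hO ⟨z, hz⟩
      exact ⟨z, hz, ∅, rfl, by simp⟩
    | succ k ih =>
      intro O hO hOF
      obtain ⟨z, hz, T, hT1, hT2⟩ := ih O hO hOF
      have hO' : IsOpen (O ∩ ⋂ c ∈ T, {z : ℕ → ℕ | f z (p c) = false}) :=
        hO.inter (isOpen_biInter_finset fun c _ => hop (p c))
      have hz' : z ∈ O ∩ ⋂ c ∈ T, {z : ℕ → ℕ | f z (p c) = false} := by
        refine ⟨hz.1, ?_⟩
        simp only [mem_iInter, mem_setOf_eq]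
        exact fun c hc => (hT2 c hc).2
      obtain ⟨U, hU, hzU, hUO⟩ := hB.exists_subset_of_mem_open hz' hO'
      have hfin := hV U hU ⟨z, hzU, hz.2⟩
      have hinf : (C \ ((C ∩ ⋂ z ∈ U ∩ F, p ⁻¹' {x | f z x = true}) ∪ (T : Set R))).Infinite :=
        hC.diff (hfin.union T.finite_toSet)
      obtain ⟨c, hc⟩ := hinf.nonempty
      have hcC : c ∈ C := hc.1
      have hc1 : c ∉ ⋂ z ∈ U ∩ F, p ⁻¹' {x | f z x = true} := fun h => hc.2 (Or.inl ⟨hcC, h⟩)
      have hc2 : c ∉ T := fun h => hc.2 (Or.inr (Finset.mem_coe.2 h))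
      simp only [mem_iInter, not_forall] at hc1
      obtain ⟨z', hz'1, hz'2⟩ := hc1
      have hz'3 : f z' (p c) = false := by
        rw [← Bool.not_eq_true]
        exact hz'2
      have hz'4 := hUO hz'1.1
      refine ⟨z', ⟨hz'4.1, hz'1.2⟩, insert c T, ?_, ?_⟩
      · rw [Finset.card_insert_of_notMem hc2, hT1]
      · intro b hb
        rcases Finset.mem_insert.1 hb with rfl | hb
        · exact ⟨hcC, hz'3⟩
        · refine ⟨(hT2 b hb).1, ?_⟩
          have h5 := hz'4.2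
          simp only [mem_iInter, mem_setOf_eq] at h5
          exact h5 b hb
  have hDdense : ∀ k, Dense (D k) := by
    intro k
    rw [dense_iff_inter_open]
    rintro O hO ⟨z, hz⟩
    obtain ⟨O', hO', rfl⟩ := isOpen_induced_iff.1 hO
    obtain ⟨z', hz', T, hT⟩ := hstep k O' hO' ⟨z, hz, z.2⟩
    exact ⟨⟨z', hz'.2⟩, hz'.1, T, hT⟩
  obtain ⟨w, hw⟩ := (dense_iInter_of_isOpen hDopen hDdense).nonempty
  refine ⟨w, w.2, fun k => ?_⟩
  exact mem_iInter.1 hw k

theorem dich {G R : Type*} [TopologicalSpace G] {f : (ℕ → ℕ) → G → Bool} (hf : Continuous f)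
    (hr : range f = topSet G) (p : R → G) (g : G) (P : Set R → Prop) :
    (∃ V : ℕ → Set R, (∀ i, P (V i)) ∧
      ∀ O : Set G, IsOpen O → g ∈ O → ∃ i, V i ⊆ p ⁻¹' O) ∨
    ∃ V : ℕ → Set R, (∀ i, ¬ P (V i)) ∧
      ∀ C : Set R, ConvTo p C g → ∃ i, (C ∩ V i).Infinite := by
  classical
  set Z : Set (ℕ → ℕ) := {z | f z g = true} with hZ
  have hZc : IsClosed Z := by
    have h1 : Continuous fun z : ℕ → ℕ => f z g := (continuous_apply g).comp hf
    exact (isClosed_discrete ({true} : Set Bool)).preimage h1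
  have hpoint : ∀ O : Set G, IsOpen O → g ∈ O → ∃ z ∈ Z, {x | f z x = true} = O := by
    intro O hO hg
    have h1 : (fun x => decide (x ∈ O)) ∈ topSet G := by
      show IsOpen {x | decide (x ∈ O) = true}
      simpa using hO
    rw [← hr] at h1
    obtain ⟨z, hz⟩ := h1
    refine ⟨z, ?_, ?_⟩
    · show f z g = true
      rw [hz]
      simpa using hg
    · rw [hz]
      ext x
      simp
  by_cases hs : Sm f p P Z
  · left
    obtain ⟨𝒱, h1, h2, h3⟩ := hs
    have hne : 𝒱.Nonempty := by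
      obtain ⟨z, hz, -⟩ := hpoint univ isOpen_univ (mem_univ g)
      obtain ⟨V, hV, -⟩ := h3 z hz
      exact ⟨V, hV⟩
    obtain ⟨V, hV⟩ := h1.exists_eq_range hne
    refine ⟨V, fun i => h2 _ (hV ▸ mem_range_self i), fun O hO hg => ?_⟩
    obtain ⟨z, hz, hzO⟩ := hpoint O hO hg
    obtain ⟨W, hW, hWz⟩ := h3 z hz
    rw [hV] at hW
    obtain ⟨i, rfl⟩ := hW
    exact ⟨i, by rw [← hzO]; exact hWz⟩
  · right
    set B := TopologicalSpace.countableBasis (ℕ → ℕ) with hB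
    have hBb : TopologicalSpace.IsTopologicalBasis B := TopologicalSpace.isBasis_countableBasis _
    have hBc : B.Countable := TopologicalSpace.countable_countableBasis _
    set 𝒰 : Set (Set (ℕ → ℕ)) := {U ∈ B | Sm f p P (U ∩ Z)} with h𝒰
    have h𝒰c : 𝒰.Countable := hBc.mono (sep_subset _ _)
    set F : Set (ℕ → ℕ) := Z \ ⋃ U ∈ 𝒰, U with hF
    have hFc : IsClosed F := by
      refine hZc.sdiff (isOpen_biUnion fun U hU => hBb.isOpen hU.1)
    have hsm : Sm f p P (Z \ F) := by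
      refine (Sm.biUnion h𝒰c (fun U => U ∩ Z) fun U hU => hU.2).mono ?_
      rintro z ⟨hz, hzF⟩
      have h1 : z ∈ ⋃ U ∈ 𝒰, U := by
        by_contra h
        exact hzF ⟨hz, h⟩
      simp only [mem_iUnion] at h1 ⊢
      obtain ⟨U, hU, hzU⟩ := h1
      exact ⟨U, hU, hzU, hz⟩
    have hFne : F.Nonempty := by
      rw [nonempty_iff_ne_empty]
      intro h
      rw [h, diff_empty] at hsm
      exact hs hsm
    have hnP : ∀ U ∈ B, (U ∩ F).Nonempty → ¬ P (⋂ z ∈ U ∩ F, p ⁻¹' {x | f z x = true}) := by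
      rintro U hU ⟨z, hzU, hzF⟩ hP
      have h1 : Sm f p P (U ∩ F) := by
        refine ⟨{⋂ z ∈ U ∩ F, p ⁻¹' {x | f z x = true}}, countable_singleton _, ?_, ?_⟩
        · rintro V hV
          rw [mem_singleton_iff] at hV
          rw [hV]
          exact hP
        · intro y hy
          exact ⟨_, mem_singleton _, biInter_subset_of_mem hy⟩
      have h2 : Sm f p P (U ∩ Z) := by
        refine (h1.union hsm).mono ?_
        rintro y ⟨hyU, hyZ⟩
        by_cases hyF : y ∈ F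
        · exact Or.inl ⟨hyU, hyF⟩
        · exact Or.inr ⟨hyZ, hyF⟩
      refine hzF.2 ?_
      simp only [mem_iUnion]
      exact ⟨U, ⟨hU, h2⟩, hzU⟩
    set 𝒲 : Set (Set R) := {V | ∃ U ∈ B, (U ∩ F).Nonempty ∧
      V = ⋂ z ∈ U ∩ F, p ⁻¹' {x | f z x = true}} with h𝒲
    have h𝒲c : 𝒲.Countable := by
      refine (hBc.image (fun U => ⋂ z ∈ U ∩ F, p ⁻¹' {x | f z x = true})).mono ?_
      rintro V ⟨U, hU, -, rfl⟩
      exact ⟨U, hU, rfl⟩
    have h𝒲ne : 𝒲.Nonempty := by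
      obtain ⟨z, hz⟩ := hFne
      obtain ⟨U, hU, hzU, -⟩ := hBb.exists_subset_of_mem_open (mem_univ z) isOpen_univ
      exact ⟨_, U, hU, ⟨z, hzU, hz⟩, rfl⟩
    obtain ⟨V, hV⟩ := h𝒲c.exists_eq_range h𝒲ne
    refine ⟨V, fun i => ?_, fun C hC => ?_⟩
    · have h1 : V i ∈ 𝒲 := hV ▸ mem_range_self i
      obtain ⟨U, hU, hUF, h2⟩ := h1
      rw [h2]
      exact hnP U hU hUF
    · by_contra hcon
      have hfin : ∀ i, (C ∩ V i).Finite := fun i => by
        by_contra h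
        exact hcon ⟨i, h⟩
      obtain ⟨w, hwF, hw⟩ := baire_arg hf p hFc hFne hBb C hC.1 (fun U hU hUF => by
        have h1 : (⋂ z ∈ U ∩ F, p ⁻¹' {x | f z x = true}) ∈ 𝒲 := ⟨U, hU, hUF, rfl⟩
        rw [hV] at h1
        obtain ⟨i, hi⟩ := h1
        rw [← hi]
        exact hfin i)
      have hO : IsOpen {x | f w x = true} := by
        have h1 : f w ∈ topSet G := hr ▸ mem_range_self w
        exact h1
      have h2 := hC.2 {x | f w x = true} hO hwF.1
      obtain ⟨T, hT1, hT2⟩ := hw (h2.toFinset.card + 1)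
      have h3 : T ⊆ h2.toFinset := by
        intro c hc
        rw [Set.Finite.mem_toFinset]
        refine ⟨(hT2 c hc).1, ?_⟩
        intro h4
        have h5 : f w (p c) = true := h4
        rw [(hT2 c hc).2] at h5
        exact absurd h5 (by decide)
      have h4 := Finset.card_le_card h3
      omega

end Pool.Agent.ASG
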