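import Pool.Agent.ASG.Defs

set_option autoImplicit false

/-!
ASG-FOne. A countable net of somewhere dense sets makes the group metrizable: the sets
`N i / N i`, `N i` the interior of the closure of `V i`, form a basis at `1`.
-/

namespace Pool.Agent.ASG

open Set Topology Filter
open scoped Pointwise

private lemma basis_one {G : Type*} [Group G] [TopologicalSpace G] [IsTopologicalGroup G]
    {V : ℕ → Set G} (hV : ∀ i, (interior (closure (V i))).Nonempty)
    (hO : ∀ O : Set G, IsOpen O → 1 ∈ O → ∃ i, V i ⊆ O) :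
    (𝓝 (1 : G)).HasBasis (fun _ : ℕ => True)
      (fun i => interior (closure (V i)) / interior (closure (V i))) := by
  refine HasBasis.mk fun t => ⟨fun ht => ?_, ?_⟩
  · obtain ⟨W, hW, hW2⟩ := exists_nhds_split_inv ht
    obtain ⟨C, hC, hCc, hCW⟩ := exists_mem_nhds_isClosed_subset hW
    obtain ⟨i, hi⟩ := hO (interior C) isOpen_interior (mem_interior_iff_mem_nhds.2 hC)
    refine ⟨i, trivial, ?_⟩
    have h1 : interior (closure (V i)) ⊆ W :=
      interior_subset.trans ((closure_minimal (hi.trans interior_subset) hCc).trans hCW)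
    rintro x ⟨a, ha, b, hb, rfl⟩
    exact hW2 a (h1 ha) b (h1 hb)
  · rintro ⟨i, -, hi⟩
    obtain ⟨a, ha⟩ := hV i
    have h1 : (1 : G) ∈ interior (closure (V i)) / interior (closure (V i)) :=
      ⟨a, ha, a, ha, div_self' a⟩
    exact mem_of_superset ((IsOpen.div_right isOpen_interior).mem_nhds h1) hi

theorem f_one {G : Type*} [Group G] [TopologicalSpace G] [IsTopologicalGroup G] [T2Space G]
    {V : ℕ → Set G} (hV : ∀ i, (interior (closure (V i))).Nonempty)
    (hO : ∀ O : Set G, IsOpen O → 1 ∈ O → ∃ i, V i ⊆ O) : TopologicalSpace.MetrizableSpace G := by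
  have h1 : (𝓝 (1 : G)).IsCountablyGenerated :=
    HasCountableBasis.isCountablyGenerated ⟨basis_one hV hO, Set.to_countable _⟩
  let _ : UniformSpace G := IsTopologicalGroup.rightUniformSpace G
  have h2 : (uniformity G).IsCountablyGenerated :=
    comap.isCountablyGenerated (𝓝 (1 : G)) (fun p : G × G => p.2 * p.1⁻¹)
  exact UniformSpace.metrizableSpace

end Pool.Agent.ASG
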