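import Mathlib

set_option autoImplicit false

/-!
ASG-Idx. A combinatorial lemma on two sequences of numbers: a sequence of natural numbers tends to
infinity or is constant along a subsequence. Only Mathlib.
-/

namespace Pool.Agent.ASG

open Set Topology Filter

private lemma one (n : ℕ → ℕ) (h : ¬ Tendsto n atTop atTop) :
    ∃ n0 : ℕ, ∃ ψ : ℕ → ℕ, StrictMono ψ ∧ ∀ i, n (ψ i) = n0 := by
  rw [tendsto_atTop] at h
  push Not at h
  obtain ⟨b, hb⟩ := h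
  have h1 : ∃ n0 : ℕ, ∃ᶠ k in atTop, n k = n0 := by
    by_contra hc
    push Not at hc
    have h2 : ∀ᶠ k in atTop, ∀ v ∈ Finset.range b, n k ≠ v := by
      rw [eventually_all_finset]
      intro v _
      exact hc v
    apply hb
    filter_upwards [h2] with k hk hlt
    exact hk (n k) (Finset.mem_range.2 hlt) rfl
  obtain ⟨n0, hn0⟩ := h1
  obtain ⟨ψ, hψ, hψ2⟩ := extraction_of_frequently_atTop hn0
  exact ⟨n0, ψ, hψ, hψ2⟩

theorem idx (n m : ℕ → ℕ) : Tendsto n atTop atTop ∨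
    ∃ n0 : ℕ, ∃ φ : ℕ → ℕ, StrictMono φ ∧ (∀ i, n (φ i) = n0) ∧
      ((∃ m0 : ℕ, ∀ i, m (φ i) = m0) ∨ Tendsto (fun i => m (φ i)) atTop atTop) := by
  by_cases h : Tendsto n atTop atTop
  · exact Or.inl h
  · right
    obtain ⟨n0, ψ, hψ, hψ2⟩ := one n h
    by_cases h2 : Tendsto (fun i => m (ψ i)) atTop atTop
    · exact ⟨n0, ψ, hψ, hψ2, Or.inr h2⟩
    · obtain ⟨m0, χ, hχ, hχ2⟩ := one (fun i => m (ψ i)) h2
      exact ⟨n0, fun i => ψ (χ i), hψ.comp hχ, fun i => hψ2 (χ i), Or.inl ⟨m0, hχ2⟩⟩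

end Pool.Agent.ASG
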