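import Pool.Agent.ASG.Defs
import Pool.Agent.ASG.Idx

set_option autoImplicit false

/-!
ASG-FTwo. Countably many nowhere dense sets cannot meet all the sequences which converge to `1` in
a nondiscrete Frechet-Urysohn group in infinite sets.
-/

namespace Pool.Agent.ASG

open Set Topology Filter

private lemma nd_union {G : Type*} [TopologicalSpace G] {V : ℕ → Set G}
    (hn : ∀ i, interior (closure (V i)) = ∅) (n : ℕ) :
    interior (closure (⋃ i ∈ Finset.range n, V i)) = ∅ := by
  induction n with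
  | zero => simp
  | succ n ih =>
    rw [Finset.range_add_one, Finset.set_biUnion_insert, closure_union,
      interior_union_isClosed_of_interior_empty isClosed_closure ih, hn]

private lemma one_mem {G : Type*} [Group G] [TopologicalSpace G] [T2Space G]
    (hd : ¬ IsOpen ({1} : Set G)) {L : Set G} (hL : interior (closure L) = ∅) :
    (1 : G) ∈ closure (Lᶜ \ {1}) := by
  rw [mem_closure_iff]
  intro O hO h1
  have hO1 : IsOpen (O \ {1}) := hO.sdiff isClosed_singleton
  have hne : (O \ {1}).Nonempty := by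
    by_contra hne
    rw [not_nonempty_iff_eq_empty, sdiff_eq_empty] at hne
    apply hd
    have : ({1} : Set G) = O := (Subset.antisymm hne (singleton_subset_iff.2 h1)).symm
    rw [this]
    exact hO
  have hns : ¬ (O \ {1}) ⊆ closure L := by
    intro hs
    have h2 := interior_maximal hs hO1
    rw [hL] at h2
    obtain ⟨z, hz⟩ := hne
    exact h2 hz
  rw [not_subset] at hns
  obtain ⟨z, hz, hzL⟩ := hns
  exact ⟨z, hz.1, fun h => hzL (subset_closure h), hz.2⟩

theorem f_two {G : Type*} [Group G] [TopologicalSpace G] [IsTopologicalGroup G] [T2Space G]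
    [FrechetUrysohnSpace G] (hd : ¬ IsOpen ({1} : Set G)) {V : ℕ → Set G}
    (hn : ∀ i, interior (closure (V i)) = ∅)
    (hV : ∀ C : Set G, ConvTo id C 1 → ∃ i, (C ∩ V i).Infinite) : False := by
  have hc : ∀ n : ℕ, ∃ c : ℕ → G, (∀ j, c j ∈ (⋃ i ∈ Finset.range (n + 1), V i)ᶜ \ {1}) ∧
      Tendsto c atTop (𝓝 1) := fun n =>
    mem_closure_iff_seq_limit.1 (one_mem hd (nd_union hn (n + 1)))
  choose c hcm hct using hc
  set x : ℕ → G := c 0 with hx
  have hx1 : ∀ n, x n ≠ 1 := fun n h => (hcm 0 n).2 h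
  have hxt : Tendsto x atTop (𝓝 1) := hct 0
  have hA : (1 : G) ∈ closure {g : G | ∃ n j, g = x n * c n j ∧ g ≠ 1} := by
    rw [mem_closure_iff]
    intro O hO h1
    have hm : Tendsto (fun p : G × G => p.1 * p.2) (𝓝 ((1 : G), (1 : G))) (𝓝 1) := by
      have h2 : Continuous fun p : G × G => p.1 * p.2 := continuous_mul
      have h3 := h2.tendsto ((1 : G), (1 : G))
      simpa using h3
    have hOn := hm (hO.mem_nhds h1)
    rw [mem_map, nhds_prod_eq, mem_prod_iff] at hOn
    obtain ⟨U, hU, U', hU', hUU⟩ := hOn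
    obtain ⟨n, hnU⟩ := (hxt.eventually hU).exists
    have he1 : ∀ᶠ j in atTop, c n j ∈ U' := (hct n).eventually hU'
    have he2 : ∀ᶠ j in atTop, c n j ≠ (x n)⁻¹ := by
      have h4 : (1 : G) ≠ (x n)⁻¹ := fun h => hx1 n (inv_eq_one.1 h.symm)
      exact (hct n).eventually_ne h4
    obtain ⟨j, hj1, hj2⟩ := (he1.and he2).exists
    refine ⟨x n * c n j, hUU (mk_mem_prod hnU hj1), n, j, rfl, fun h => hj2 ?_⟩
    exact (inv_eq_of_mul_eq_one_right h).symm
  obtain ⟨s, hsA, hst⟩ := mem_closure_iff_seq_limit.1 hA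
  choose n j hs hs1 using hsA
  rcases idx n j with hT | ⟨n0, φ, hφ, hn0, hm⟩
  · have hd1 : Tendsto (fun k => c (n k) (j k)) atTop (𝓝 1) := by
      have h1 : Tendsto (fun k => (x (n k))⁻¹ * s k) atTop (𝓝 ((1 : G)⁻¹ * 1)) :=
        ((hxt.comp hT).inv).mul hst
      rw [inv_one, one_mul] at h1
      refine h1.congr fun k => ?_
      rw [hs k, inv_mul_cancel_left]
    set d : ℕ → G := fun k => c (n k) (j k) with hd'
    have hdne : ∀ k, d k ≠ 1 := fun k h => (hcm (n k) (j k)).2 h
    have hCinf : (range d).Infinite := by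
      intro hf
      have h2 : (1 : G) ∈ range d := hf.isClosed.mem_of_tendsto hd1
        (Eventually.of_forall fun k => mem_range_self k)
      obtain ⟨k, hk⟩ := h2
      exact hdne k hk
    have hconv : ConvTo id (range d) 1 := by
      refine ⟨hCinf, fun O hO h1 => ?_⟩
      have h2 := hd1.eventually (hO.mem_nhds h1)
      rw [eventually_atTop] at h2
      obtain ⟨K, hK⟩ := h2
      refine ((finite_Iio K).image d).subset ?_
      rintro _ ⟨⟨k, rfl⟩, hk⟩
      refine ⟨k, ?_, rfl⟩
      by_contra hkK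
      exact hk (hK k (not_lt.1 hkK))
    obtain ⟨i, hi⟩ := hV _ hconv
    apply hi
    have h2 := hT.eventually_ge_atTop i
    rw [eventually_atTop] at h2
    obtain ⟨K, hK⟩ := h2
    refine ((finite_Iio K).image d).subset ?_
    rintro _ ⟨⟨k, rfl⟩, hk⟩
    refine ⟨k, ?_, rfl⟩
    by_contra hkK
    have h3 := hK k (not_lt.1 hkK)
    exact (hcm (n k) (j k)).1 (mem_biUnion (Finset.mem_coe.2 (Finset.mem_range.2
      (Nat.lt_succ_of_le h3))) hk)
  · have hsφ : Tendsto (fun i => s (φ i)) atTop (𝓝 1) := hst.comp hφ.tendsto_atTop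
    have hsi : ∀ i, s (φ i) = x n0 * c n0 (j (φ i)) := by
      intro i
      rw [hs, hn0]
    rcases hm with ⟨m0, hm0⟩ | hm
    · have h1 : Tendsto (fun i => s (φ i)) atTop (𝓝 (x n0 * c n0 m0)) := by
        have h2 : (fun i => s (φ i)) = fun _ => x n0 * c n0 m0 := by
          funext i
          rw [hsi, hm0]
        rw [h2]
        exact tendsto_const_nhds
      have h3 := tendsto_nhds_unique h1 hsφ
      apply hs1 (φ 0)
      rw [hsi, hm0, h3]
    · have h1 : Tendsto (fun i => s (φ i)) atTop (𝓝 (x n0 * 1)) := by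
        have h2 : (fun i => s (φ i)) = fun i => x n0 * c n0 (j (φ i)) := by
          funext i
          rw [hsi]
        rw [h2]
        exact tendsto_const_nhds.mul ((hct n0).comp hm)
      rw [mul_one] at h1
      exact hx1 n0 (tendsto_nhds_unique h1 hsφ)

end Pool.Agent.ASG
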