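import Pool.Agent.ASG.Defs

set_option autoImplicit false

/-!
ASG-FanA. In a sequential group which is not Frechet-Urysohn there are sequences `a n` converging to
`b n`, `b n → 1`, without sequences of points `a n j` converging to `1`.
-/

namespace Pool.Agent.ASG

open Set Topology Filter

theorem fan_a {G : Type*} [Group G] [TopologicalSpace G] [IsTopologicalGroup G]
    [SequentialSpace G] (h : ¬ FrechetUrysohnSpace G) :
    ∃ (b : ℕ → G) (a : ℕ → ℕ → G), Tendsto b atTop (𝓝 1) ∧ (∀ n, Tendsto (a n) atTop (𝓝 (b n))) ∧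
      (∀ n j, a n j ≠ b n) ∧ ∀ n j : ℕ → ℕ, ¬ Tendsto (fun k => a (n k) (j k)) atTop (𝓝 1) := by
  have h1 : ∃ (A : Set G) (x : G), x ∈ seqClosure (seqClosure A) ∧ x ∉ seqClosure A := by
    by_contra hcon
    push Not at hcon
    refine h ⟨fun s => ?_⟩
    have hs : IsSeqClosed (seqClosure s) := fun u p hu hp => hcon s p ⟨u, hu, hp⟩
    exact closure_minimal subset_seqClosure hs.isClosed
  obtain ⟨A, x, ⟨b', hb', hbx⟩, hx⟩ := h1
  have h2 : ∃ N, ∀ n, N ≤ n → b' n ∉ A := by
    by_contra hcon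
    push Not at hcon
    have hf : ∃ᶠ n in atTop, b' n ∈ A := by
      rw [frequently_atTop]
      intro N
      obtain ⟨n, hn, hA⟩ := hcon N
      exact ⟨n, hn, hA⟩
    obtain ⟨φ, hφ, hφA⟩ := extraction_of_frequently_atTop hf
    exact hx ⟨fun n => b' (φ n), hφA, hbx.comp hφ.tendsto_atTop⟩
  obtain ⟨N, hN⟩ := h2
  choose a' ha' hab' using hb'
  refine ⟨fun n => x⁻¹ * b' (n + N), fun n j => x⁻¹ * a' (n + N) j, ?_, ?_, ?_, ?_⟩
  · have h3 : Tendsto (fun n => b' (n + N)) atTop (𝓝 x) := hbx.comp (tendsto_add_atTop_nat N)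
    have h4 := h3.const_mul x⁻¹
    rwa [inv_mul_cancel] at h4
  · intro n
    exact (hab' (n + N)).const_mul x⁻¹
  · intro n j heq
    have h3 : a' (n + N) j = b' (n + N) := mul_left_cancel heq
    exact hN (n + N) (Nat.le_add_left N n) (h3 ▸ ha' (n + N) j)
  · intro n j hlim
    refine hx ⟨fun k => a' (n k + N) (j k), fun k => ha' _ _, ?_⟩
    have h4 := hlim.const_mul x
    simpa using h4

end Pool.Agent.ASG
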