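import Mathlib

set_option autoImplicit false

/-!
ASG-FanW. Points of countable Hausdorff spaces are intersections of countably many closed neighbourhoods. Only Mathlib.
-/

namespace Pool.Agent.ASG

open Set Topology Filter

theorem fan_w {X : Type*} [TopologicalSpace X] [T2Space X] [Countable X] (x : X) :
    ∃ W : ℕ → Set X, (∀ k, IsOpen (W k)) ∧ (∀ k, x ∈ W k) ∧ Antitone W ∧ W 0 = univ ∧
      ∀ g, (∀ k, g ∈ closure (W k)) → g = x := by
  classical
  have hO : ∀ g : X, ∃ O : Set X, IsOpen O ∧ x ∈ O ∧ (g ≠ x → g ∉ closure O) := by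
    intro g
    by_cases h : g = x
    · exact ⟨univ, isOpen_univ, mem_univ _, fun h' => absurd h h'⟩
    · obtain ⟨u, v, hu, hv, hxu, hgv, hd⟩ := t2_separation (Ne.symm h)
      refine ⟨u, hu, hxu, fun _ hg => ?_⟩
      exact Set.disjoint_left.1 (hd.closure_left hv) hg hgv
  choose O hO1 hO2 hO3 using hO
  haveI : Nonempty X := ⟨x⟩
  obtain ⟨e, he⟩ := exists_surjective_nat X
  refine ⟨fun k => ⋂ i ∈ Finset.range k, O (e i), ?_, ?_, ?_, ?_, ?_⟩
  · intro k
    exact isOpen_biInter_finset fun i _ => hO1 (e i)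
  · intro k
    exact Set.mem_iInter₂.2 fun i _ => hO2 (e i)
  · intro k l hkl y hy
    rw [Set.mem_iInter₂] at hy ⊢
    intro i hi
    exact hy i (Finset.range_mono hkl hi)
  · simp
  · intro g hg
    by_contra hgx
    obtain ⟨i, rfl⟩ := he g
    refine hO3 (e i) hgx (closure_mono ?_ (hg (i + 1)))
    intro y hy
    rw [Set.mem_iInter₂] at hy
    exact hy i (Finset.self_mem_range_succ i)

end Pool.Agent.ASG
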