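import Pool.Agent.ASG.Defs

set_option autoImplicit false

/-!
ASG-KSeq. Hausdorff `k_ω` spaces: they have an increasing sequence of compact sets which determines
the topology and such that every convergent sequence lies in one of them.
-/

namespace Pool.Agent.ASG

open Set Topology Filter

theorem k_seq {X : Type} [TopologicalSpace X] [T2Space X] (h : IsKOmega X) :
    ∃ K : ℕ → Set X, (∀ n, IsCompact (K n)) ∧ Monotone K ∧
      (∀ A : Set X, (∀ n, IsClosed (A ∩ K n)) → IsClosed A) ∧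
      ∀ (x : ℕ → X) (a : X), Tendsto x atTop (𝓝 a) → ∃ n, ∀ i, x i ∈ K n := by
  classical
  obtain ⟨K', _, _, q, hq⟩ := h
  obtain ⟨K, hK⟩ : ∃ K : ℕ → Set X, K = fun n => ⋃ m ∈ Finset.range (n + 1),
      range (fun x : K' m => q ⟨m, x⟩) := ⟨_, rfl⟩
  have hmem : ∀ (n m : ℕ) (x : K' m), m ≤ n → q ⟨m, x⟩ ∈ K n := by
    intro n m x hmn
    rw [hK]
    simp only [mem_iUnion]
    exact ⟨m, Finset.mem_range.2 (by omega), x, rfl⟩
  have hcont : ∀ m, Continuous (fun x : K' m => q ⟨m, x⟩) := fun m =>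
    hq.continuous.comp continuous_sigmaMk
  have hcomp : ∀ n, IsCompact (K n) := by
    intro n
    rw [hK]
    exact (Finset.range (n + 1)).isCompact_biUnion fun m _ => isCompact_range (hcont m)
  have hmono : Monotone K := by
    intro n n' hn y hy
    rw [hK] at hy
    simp only [mem_iUnion] at hy
    obtain ⟨m, hm, x, rfl⟩ := hy
    exact hmem n' m x (by have := Finset.mem_range.1 hm; omega)
  have hclosed : ∀ A : Set X, (∀ n, IsClosed (A ∩ K n)) → IsClosed A := by
    intro A hA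
    rw [← hq.isClosed_preimage, isClosed_sigma_iff]
    intro n
    have h1 : Sigma.mk n ⁻¹' (q ⁻¹' A) = (fun x : K' n => q ⟨n, x⟩) ⁻¹' (A ∩ K n) := by
      ext x
      exact ⟨fun hx => ⟨hx, hmem n n x le_rfl⟩, fun hx => hx.1⟩
    rw [h1]
    exact (hA n).preimage (hcont n)
  have hex : ∀ y : X, ∃ n, y ∈ K n := by
    intro y
    obtain ⟨⟨n, x⟩, rfl⟩ := hq.surjective y
    exact ⟨n, hmem n n x le_rfl⟩
  refine ⟨K, hcomp, hmono, hclosed, ?_⟩
  intro x a hxa
  by_contra hcon
  have hcon' : ∀ n, ∃ i, x i ∉ K n := by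
    intro n
    by_contra h1
    exact hcon ⟨n, fun i => by_contra fun h2 => h1 ⟨i, h2⟩⟩
  choose i hi using hcon'
  have hD : IsClosed (range (fun n => x (i n)) \ {a}) := by
    apply hclosed
    intro m
    apply Set.Finite.isClosed
    refine ((Set.finite_lt_nat m).image (fun n => x (i n))).subset ?_
    rintro y ⟨⟨⟨n, rfl⟩, _⟩, hy⟩
    refine ⟨n, ?_, rfl⟩
    by_contra h1
    exact hi n (hmono (not_lt.1 h1) hy)
  have hDa : (range (fun n => x (i n)) \ {a})ᶜ ∈ 𝓝 a :=
    hD.isOpen_compl.mem_nhds fun h1 => h1.2 rfl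
  obtain ⟨N, hN⟩ := Filter.eventually_atTop.1 (hxa.eventually hDa)
  choose k hk using hex
  obtain ⟨m, hm⟩ : ∃ m, m = max (k a) ((Finset.range N).sup fun j => k (x j)) := ⟨_, rfl⟩
  have ha : a ∈ K m := hmono (by rw [hm]; exact le_max_left _ _) (hk a)
  have hj : ∀ j < N, x j ∈ K m := by
    intro j hj
    refine hmono ?_ (hk (x j))
    rw [hm]
    exact (Finset.le_sup (f := fun j => k (x j)) (Finset.mem_range.2 hj)).trans (le_max_right _ _)
  have h1 : N ≤ i m := by
    by_contra h2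
    exact hi m (hj _ (not_le.1 h2))
  exact hN (i m) h1 ⟨⟨m, rfl⟩, fun h2 => hi m (by rw [Set.mem_singleton_iff.1 h2]; exact ha)⟩

end Pool.Agent.ASG
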