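import Pool.Agent.ASG.CpCt

set_option autoImplicit false

/-!
ASG-Out. In a nondiscrete countable sequential Hausdorff group there is for every compact set `K` an
injective sequence outside `K` which converges to `1`.
-/

namespace Pool.Agent.ASG

open Set Topology Filter Pointwise

private lemma nbhd {G : Type*} [Group G] [TopologicalSpace G] [T2Space G] [Countable G]
    {K' L : Set G} (hL : IsCompact L) (h1L : (1 : G) ∈ L)
    (hs : ∀ z : ℕ → G, Tendsto z atTop (𝓝 1) → ∀ᶠ i in atTop, z i ∈ K') :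
    ∃ U : Set G, IsOpen U ∧ 1 ∈ U ∧ U ∩ L ⊆ K' := by
  classical
  obtain ⟨O, hO, hOA⟩ := cp_ct hL
  by_contra hcon
  push Not at hcon
  have hU : ∀ n : ℕ, ∃ z : G, (∀ k < n, 1 ∈ O k → z ∈ O k) ∧ z ∈ L ∧ z ∉ K' := by
    intro n
    have h1 : IsOpen (⋂ k ∈ (Finset.range n).filter fun k => (1 : G) ∈ O k, O k) :=
      isOpen_biInter_finset fun k _ => hO k
    have h2 : (1 : G) ∈ ⋂ k ∈ (Finset.range n).filter fun k => (1 : G) ∈ O k, O k := by
      refine mem_iInter₂.2 fun k hk => ?_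
      rw [Finset.mem_filter] at hk
      exact hk.2
    have h3 := hcon _ h1 h2
    rw [not_subset] at h3
    obtain ⟨z, hz, hzK⟩ := h3
    refine ⟨z, fun k hk h1k => ?_, hz.2, hzK⟩
    exact mem_iInter₂.1 hz.1 k (Finset.mem_filter.2 ⟨Finset.mem_range.2 hk, h1k⟩)
  choose z hz1 hz2 hz3 using hU
  have hzt : Tendsto z atTop (𝓝 1) := by
    rw [tendsto_atTop_nhds]
    intro A h1A hA
    obtain ⟨k, hk1, hk2⟩ := hOA A hA 1 ⟨h1A, h1L⟩
    refine ⟨k + 1, fun n hn => hk2 ⟨hz1 n k (by omega) hk1, hz2 n⟩⟩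
  obtain ⟨i, hi⟩ := (hs z hzt).exists
  exact hz3 i hi

private lemma isolated {G : Type*} [TopologicalSpace G] [T2Space G] [Countable G]
    {U L : Set G} (hL : IsCompact L) (hU : IsOpen U) {p : G} (hp : p ∈ U ∩ L) :
    ∃ x ∈ U ∩ L, ∃ W : Set G, IsOpen W ∧ W ∩ L = {x} := by
  classical
  have : CompactSpace L := isCompact_iff_compactSpace.1 hL
  set S : Set L := Subtype.val ⁻¹' U with hS
  have hSo : IsOpen S := hU.preimage continuous_subtype_val
  have hx : ∃ x ∈ S, IsOpen ({x} : Set L) := by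
    by_contra hcon
    push Not at hcon
    have hd : Dense (⋂ s : S, ({s.1}ᶜ : Set L)) := by
      refine dense_iInter_of_isOpen (fun s => isOpen_compl_singleton) fun s => ?_
      rw [dense_compl_singleton_iff_not_open]
      exact hcon s.1 s.2
    obtain ⟨y, hy1, hy2⟩ := hd.inter_open_nonempty S hSo ⟨⟨p, hp.2⟩, hp.1⟩
    exact mem_iInter.1 hy2 ⟨y, hy1⟩ rfl
  obtain ⟨x, hxS, hxo⟩ := hx
  obtain ⟨W, hW, hWx⟩ := isOpen_induced_iff.1 hxo
  refine ⟨x.1, ⟨hxS, x.2⟩, W, hW, ?_⟩
  ext y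
  constructor
  · rintro ⟨hy, hyL⟩
    have h1 : (⟨y, hyL⟩ : L) ∈ Subtype.val ⁻¹' W := hy
    rw [hWx] at h1
    exact congrArg Subtype.val h1
  · intro hy
    rw [mem_singleton_iff] at hy
    have h1 : x ∈ Subtype.val ⁻¹' W := by
      rw [hWx]
      exact mem_singleton x
    rw [hy]
    exact ⟨h1, x.2⟩

theorem out_k {G : Type*} [Group G] [TopologicalSpace G] [IsTopologicalGroup G] [T2Space G]
    [Countable G] [SequentialSpace G] (hd : ¬ IsOpen ({1} : Set G)) {K : Set G} (hK : IsCompact K) :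
    ∃ x : ℕ → G, Function.Injective x ∧ Tendsto x atTop (𝓝 1) ∧ ∀ k, x k ≠ 1 ∧ x k ∉ K := by
  classical
  have hstar : ¬ ∀ z : ℕ → G, Tendsto z atTop (𝓝 1) → ∀ᶠ i in atTop, z i ∈ insert 1 K := by
    intro hs
    have hK' : IsCompact (insert 1 K) := hK.insert 1
    have h1K : (1 : G) ∈ insert 1 K := mem_insert 1 K
    have hL : IsCompact (insert 1 K * insert 1 K) := hK'.mul hK'
    have h1L : (1 : G) ∈ insert 1 K * insert 1 K := ⟨1, h1K, 1, h1K, one_mul 1⟩
    obtain ⟨U, hU, h1U, hUL⟩ := nbhd hL h1L hs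
    obtain ⟨x, hx, W, hW, hWx⟩ := isolated hL hU ⟨h1U, h1L⟩
    have hxK : x ∈ insert 1 K := hUL hx
    have hxW : x ∈ W := by
      have h1 : x ∈ W ∩ (insert 1 K * insert 1 K) := by
        rw [hWx]
        exact mem_singleton x
      exact h1.1
    have hcl : IsClosed ({x}ᶜ : Set G) := by
      apply IsSeqClosed.isClosed
      intro z p hz hzp hpx
      rw [mem_singleton_iff] at hpx
      rw [hpx] at hzp
      have h1 : Tendsto (fun i => x⁻¹ * z i) atTop (𝓝 1) := by
        have h2 : Tendsto (fun i => x⁻¹ * z i) atTop (𝓝 (x⁻¹ * x)) := tendsto_const_nhds.mul hzp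
        rwa [inv_mul_cancel] at h2
      have h2 := hs _ h1
      have h3 : ∀ᶠ i in atTop, z i ∈ W := hzp.eventually (hW.mem_nhds hxW)
      obtain ⟨i, hi1, hi2⟩ := (h2.and h3).exists
      have h4 : z i ∈ W ∩ (insert 1 K * insert 1 K) :=
        ⟨hi2, x, hxK, x⁻¹ * z i, hi1, mul_inv_cancel_left x (z i)⟩
      rw [hWx] at h4
      exact hz i h4
    have hxo : IsOpen ({x} : Set G) := by
      have h1 := hcl.isOpen_compl
      rwa [compl_compl] at h1
    apply hd
    have h1 : IsOpen ((fun g => x * g) ⁻¹' ({x} : Set G)) :=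
      hxo.preimage (continuous_const_mul x)
    have h2 : (fun g => x * g) ⁻¹' ({x} : Set G) = {1} := by
      ext g
      rw [mem_preimage, mem_singleton_iff, mem_singleton_iff, mul_eq_left]
    rwa [h2] at h1
  push Not at hstar
  obtain ⟨z, hz, hzK⟩ := hstar
  obtain ⟨φ, hφ, hφK⟩ := extraction_of_frequently_atTop hzK
  set w : ℕ → G := fun i => z (φ i) with hw
  have hwt : Tendsto w atTop (𝓝 1) := hz.comp hφ.tendsto_atTop
  have hinf : (range w).Infinite := by
    intro hf
    have h2 : (1 : G) ∈ range w := hf.isClosed.mem_of_tendsto hwt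
      (Eventually.of_forall fun k => mem_range_self k)
    obtain ⟨k, hk⟩ := h2
    apply hφK k
    change w k ∈ insert 1 K
    rw [hk]
    exact mem_insert 1 K
  set e := hinf.natEmbedding (range w) with he
  have hinj : Function.Injective fun k => (e k).1 := fun a b hab =>
    e.injective (Subtype.ext hab)
  refine ⟨fun k => (e k).1, hinj, ?_, fun k => ?_⟩
  · rw [← Nat.cofinite_eq_atTop]
    intro A hA
    rw [mem_map, mem_cofinite]
    obtain ⟨N, hN⟩ := eventually_atTop.1 (hwt.eventually hA)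
    have hf : (range w \ A).Finite := by
      refine ((finite_Iio N).image w).subset ?_
      rintro _ ⟨⟨k, rfl⟩, hk⟩
      refine ⟨k, ?_, rfl⟩
      by_contra hkN
      exact hk (hN k (not_lt.1 hkN))
    refine (hf.preimage hinj.injOn).subset ?_
    intro k hk
    exact ⟨(e k).2, hk⟩
  · obtain ⟨i, hi⟩ := (e k).2
    have h1 : w i ∉ insert 1 K := hφK i
    rw [hi, mem_insert_iff, not_or] at h1
    exact h1

end Pool.Agent.ASG
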