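import Pool.Agent.ASG.Step
import Pool.Agent.ASG.Out
import Pool.Agent.ASG.KSeq
import Pool.Agent.ASG.Cof

set_option autoImplicit false

/-!
ASG-Ind. In nondiscrete countable `k_ω` groups there are sets of every countable sequential rank,
by induction on the rank; the induction step is `step`, applied to translates of sets of smaller
ranks by the terms of a sequence converging to `1`.
-/

namespace Pool.Agent.ASG

open Set Topology Filter Ordinal

theorem ind {G : Type} [Group G] [TopologicalSpace G] [IsTopologicalGroup G] [T2Space G]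
    [Countable G] [SequentialSpace G] (hd : ¬ IsOpen ({1} : Set G)) (h : IsKOmega G)
    (α : Ordinal.{0}) (hα : α < ω₁) (C : Set G) (hC : IsCompact C) :
    ∃ A : Set G, 1 ∈ closure A ∧ (∀ z ∈ closure A, z ≠ 1 → z ∉ C) ∧ 1 ∉ sc A α := by
  obtain ⟨K, hK, hmon, hdet, hseq⟩ := k_seq h
  induction α using WellFoundedLT.induction generalizing C with
  | _ α ih =>
    obtain ⟨x, hi, hx, hx1⟩ := out_k hd hC
    by_cases h0 : α = 0
    · subst h0
      have hcl : closure (range x) ⊆ insert 1 (range x) :=
        closure_minimal (subset_insert _ _) hx.isCompact_insert_range.isClosed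
      refine ⟨range x, mem_closure_of_tendsto hx (Eventually.of_forall fun k => mem_range_self k),
        ?_, ?_⟩
      · intro z hz hz1
        rcases hcl hz with h1 | ⟨k, rfl⟩
        · exact absurd h1 hz1
        · exact (hx1 k).2
      · rw [sc_zero]
        rintro ⟨k, hk⟩
        exact (hx1 k).1 hk
    · obtain ⟨a, hamon, haα, hacof⟩ := cof hα h0
      have hD : ∀ k, ∃ A : Set G, 1 ∈ closure A ∧
          (∀ z ∈ closure A, z ≠ 1 →
            z ∉ (fun y => (x k)⁻¹ * y) '' (K k ∪ C ∪ insert 1 (range x))) ∧ 1 ∉ sc A (a k) := by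
        intro k
        refine ih (a k) (haα k) ((haα k).trans hα) _ ?_
        exact (((hK k).union hC).union hx.isCompact_insert_range).image
          (continuous_const_mul _)
      choose A hA1 hA2 hA3 using hD
      have hmem : ∀ k, ∀ z ∈ closure (A k), z ≠ 1 →
          x k * z ∉ K k ∪ C ∪ insert 1 (range x) := by
        intro k z hz hz1 hcon
        exact hA2 k z hz hz1 ⟨x k * z, hcon, by simp⟩
      obtain ⟨r1, r2, r3⟩ := step hK hmon hdet hseq hi hx (fun k => (hx1 k).1)
        (fun k => (hx1 k).2) hA1 hA3 (by
          intro k z hz hz1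
          have h1 := hmem k z hz hz1
          simp only [mem_union, mem_insert_iff, mem_range, not_or, not_exists] at h1
          exact ⟨h1.1.1, h1.1.2, h1.2.1, fun l hl => h1.2.2 l hl.symm⟩)
      refine ⟨_, r1, r2, ?_⟩
      intro hcon
      obtain ⟨δ, hδ, hfr⟩ := r3 α hcon
      obtain ⟨k0, hk0⟩ := hacof δ hδ
      rw [frequently_atTop] at hfr
      obtain ⟨k, hk, hlt⟩ := hfr k0
      exact absurd (hk0.trans (hamon hk)) (not_le.2 hlt)

end Pool.Agent.ASG
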