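import Pool.Agent.ASG.Defs

set_option autoImplicit false

/-!
Countably many compact sets which meet every sequence converging to `1` in an infinite set make a
countable sequential group a `k_ω` space (translates of these compact sets are used).
-/

namespace Pool.Agent.ASG

open Set Topology Filter

theorem kom {G : Type} [Group G] [TopologicalSpace G] [IsTopologicalGroup G] [T2Space G] [Countable G]
    [SequentialSpace G] {V : ℕ → Set G} (hc : ∀ i, IsCompact (closure (V i)))
    (hV : ∀ C : Set G, ConvTo id C 1 → ∃ i, (C ∩ V i).Infinite) : IsKOmega G := by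
  classical
  obtain ⟨e, he⟩ := exists_surjective_nat (G × ℕ)
  set L : ℕ → Set G := fun n => {x | (e n).1⁻¹ * x ∈ closure (V (e n).2) ∪ {1}} with hL
  have hLc : ∀ n, IsCompact (L n) := by
    intro n
    have h1 : IsCompact (closure (V (e n).2) ∪ {1}) := (hc _).union isCompact_singleton
    have h2 : L n = (Homeomorph.mulLeft (e n).1) '' (closure (V (e n).2) ∪ {1}) := by
      ext x
      constructor
      · intro hx
        exact ⟨_, hx, by simp⟩
      · rintro ⟨y, hy, rfl⟩
        simpa [hL] using hy
    rw [h2]
    exact h1.image (Homeomorph.mulLeft _).continuous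
  refine ⟨fun n => ↥(L n), fun n => inferInstance,
    fun n => isCompact_iff_compactSpace.mp (hLc n), fun p => (p.2 : G), ?_⟩
  have hcont : Continuous (fun p : (Σ n, ↥(L n)) => (p.2 : G)) :=
    continuous_sigma fun n => continuous_subtype_val
  rw [isQuotientMap_iff_isClosed]
  refine ⟨?_, ?_⟩
  · intro g
    obtain ⟨n, hn⟩ := he (g, 0)
    have hg : g ∈ L n := by
      simp only [hL, mem_setOf_eq, hn]
      right
      simp
    exact ⟨⟨n, ⟨g, hg⟩⟩, rfl⟩
  · intro A
    refine ⟨fun h => h.preimage hcont, fun h => ?_⟩
    have hcl : ∀ n, IsClosed (A ∩ L n) := by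
      intro n
      have h1 : IsClosed {x : ↥(L n) | (x : G) ∈ A} := by
        have := isClosed_sigma_iff.mp h n
        exact this
      have h2 := (hLc n).isClosed.isClosedEmbedding_subtypeVal.isClosedMap _ h1
      have h3 : (Subtype.val '' {x : ↥(L n) | (x : G) ∈ A}) = A ∩ L n := by
        ext x
        constructor
        · rintro ⟨y, hy, rfl⟩
          exact ⟨hy, y.2⟩
        · rintro ⟨h4, h5⟩
          exact ⟨⟨x, h5⟩, h4, rfl⟩
      rwa [h3] at h2
    apply IsSeqClosed.isClosed
    intro a x ha hax
    by_cases hx : ∃ k, a k = x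
    · obtain ⟨k, hk⟩ := hx
      rw [← hk]
      exact ha k
    push Not at hx
    set b : ℕ → G := fun k => x⁻¹ * a k with hb
    have hbt : Tendsto b atTop (𝓝 1) := by
      have := (tendsto_const_nhds (x := x⁻¹)).mul hax
      simpa [hb] using this
    have hb1 : ∀ k, b k ≠ 1 := by
      intro k h9
      apply hx k
      have h10 : x⁻¹ * a k = 1 := h9
      exact (inv_mul_eq_one.mp h10).symm
    have hconv : ConvTo id (range b) 1 := by
      refine ⟨?_, ?_⟩
      · intro hfin
        have h1 : (range b)ᶜ ∈ 𝓝 (1 : G) := by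
          apply hfin.isClosed.isOpen_compl.mem_nhds
          rintro ⟨k, hk⟩
          exact hb1 k hk
        obtain ⟨k, hk⟩ := (hbt.eventually h1).exists
        exact hk ⟨k, rfl⟩
      · intro O hO h1O
        obtain ⟨K, hK⟩ := eventually_atTop.mp (hbt.eventually (hO.mem_nhds h1O))
        refine ((finite_Iio K).image b).subset ?_
        rintro y ⟨⟨k, rfl⟩, hy⟩
        refine ⟨k, ?_, rfl⟩
        by_contra h9
        simp only [mem_Iio, not_lt] at h9
        exact hy (hK k h9)
    obtain ⟨i, hi⟩ := hV _ hconv
    obtain ⟨n, hn⟩ := he (x, i)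
    have hfreq : ∃ᶠ k in atTop, a k ∈ A ∩ L n := by
      have h1 : ∃ᶠ k in atTop, b k ∈ V i := by
        intro hev
        obtain ⟨K, hK⟩ := eventually_atTop.mp hev
        apply hi
        refine ((finite_Iio K).image b).subset ?_
        rintro y ⟨⟨k, rfl⟩, hy⟩
        refine ⟨k, ?_, rfl⟩
        by_contra h9
        simp only [mem_Iio, not_lt] at h9
        exact hK k h9 hy
      refine h1.mono fun k hk => ⟨ha k, ?_⟩
      simp only [hL, mem_setOf_eq, hn]
      left
      exact subset_closure hk
    exact ((hcl n).mem_of_frequently_of_tendsto hfreq hax).1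

end Pool.Agent.ASG
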