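import Pool.Agent.ASG.FanA
import Pool.Agent.ASG.FanW

set_option autoImplicit false

/-!
ASG-MkFan. A sequential group which is not Frechet-Urysohn contains a fan: the sequences `(b n)⁻¹ * a n (j + s n)`,
where `a n → b n → 1` are the sequences of `fan_a` and the shifts `s n` keep `a n (j + s n)` in closed neighbourhoods of `1`
which shrink to `1`.
-/

namespace Pool.Agent.ASG

open Set Topology Filter

theorem mk_fan {G : Type*} [Group G] [TopologicalSpace G] [IsTopologicalGroup G] [T2Space G]
    [Countable G] [SequentialSpace G] (h : ¬ FrechetUrysohnSpace G) : ∃ y : ℕ → ℕ → G, Fan y := by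
  classical
  obtain ⟨b, a, hb, ha, hne, hno⟩ := fan_a h
  obtain ⟨W, hWo, hW1, hWa, hW0, hWi⟩ := fan_w (1 : G)
  set κ : ℕ → ℕ := fun n => Nat.findGreatest (fun k => b n ∈ W k) n with hκ
  have hbκ : ∀ n, b n ∈ W (κ n) := fun n =>
    Nat.findGreatest_spec (P := fun k => b n ∈ W k) (Nat.zero_le n) (by rw [hW0]; exact mem_univ _)
  have hκt : ∀ k, ∀ᶠ n in atTop, k ≤ κ n := by
    intro k
    have h1 : ∀ᶠ n in atTop, b n ∈ W k := hb.eventually ((hWo k).mem_nhds (hW1 k))
    filter_upwards [h1, eventually_ge_atTop k] with n h1 h2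
    exact Nat.le_findGreatest h2 h1
  have hs : ∀ n, ∃ s, ∀ j, a n (j + s) ∈ W (κ n) := by
    intro n
    have h1 : ∀ᶠ j in atTop, a n j ∈ W (κ n) := (ha n).eventually ((hWo _).mem_nhds (hbκ n))
    obtain ⟨s, hs⟩ := eventually_atTop.1 h1
    exact ⟨s, fun j => hs _ (Nat.le_add_left s j)⟩
  choose s hs using hs
  set y : ℕ → ℕ → G := fun n j => (b n)⁻¹ * a n (j + s n) with hy
  have hy1 : ∀ n j, y n j ≠ 1 := by
    intro n j h1
    exact hne n (j + s n) (inv_mul_eq_one.1 h1).symm
  refine ⟨y, fun n => ?_, fun n j hn => ?_⟩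
  · have h1 : Tendsto (fun j => a n (j + s n)) atTop (𝓝 (b n)) :=
      (ha n).comp (tendsto_add_atTop_nat _)
    have h2 := (tendsto_const_nhds (x := (b n)⁻¹)).mul h1
    rwa [inv_mul_cancel] at h2
  · set Y : Set G := range (fun i => y (n i) (j i)) with hY
    have h1Y : (1 : G) ∉ Y := by
      rintro ⟨i, hi⟩
      exact hy1 _ _ hi
    have hcl : IsClosed Y := by
      refine IsSeqClosed.isClosed ?_
      intro z g hz hg
      by_contra hgY
      choose i hi using hz
      have hev : ∀ i0, ∀ᶠ k in atTop, i k ≠ i0 := by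
        intro i0
        have h2 : g ≠ y (n i0) (j i0) := fun h2 => hgY ⟨i0, h2.symm⟩
        filter_upwards [hg.eventually_ne h2] with k hk h3
        apply hk
        rw [← hi k, h3]
      have hit : Tendsto i atTop atTop := by
        refine tendsto_atTop.2 fun c => ?_
        have h2 : ∀ᶠ k in atTop, ∀ i0 ∈ Finset.range c, i k ≠ i0 :=
          (Filter.eventually_all_finset (Finset.range c)).2 fun i0 _ => hev i0
        filter_upwards [h2] with k hk
        by_contra h3
        exact hk (i k) (Finset.mem_range.2 (not_le.1 h3)) rfl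
      have hnt : Tendsto (fun k => n (i k)) atTop atTop := hn.tendsto_atTop.comp hit
      have hlim : Tendsto (fun k => a (n (i k)) (j (i k) + s (n (i k)))) atTop (𝓝 g) := by
        have h2 : Tendsto (fun k => b (n (i k)) * z k) atTop (𝓝 (1 * g)) := (hb.comp hnt).mul hg
        rw [one_mul] at h2
        refine h2.congr fun k => ?_
        rw [← hi k]
        show b _ * ((b _)⁻¹ * a _ _) = _
        rw [mul_inv_cancel_left]
      have hg1 : g = 1 := by
        refine hWi g fun k' => mem_closure_of_tendsto hlim ?_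
        filter_upwards [hnt.eventually (hκt k')] with k hk
        exact hWa hk (hs _ _)
      rw [hg1] at hlim
      exact hno (fun k => n (i k)) (fun k => j (i k) + s (n (i k))) hlim
    exact ⟨Yᶜ, hcl.isOpen_compl, h1Y, fun i hi => hi ⟨i, rfl⟩⟩

end Pool.Agent.ASG
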