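import Pool.Agent.ASG.Sc

set_option autoImplicit false

/-!
ASG-ScTop. The sequential order of a sequential space is at most `ω₁`: the union of the iterated
sequential closures below `ω₁` is sequentially closed, because countable suprema stay below `ω₁`.
-/

namespace Pool.Agent.ASG

open Set Topology Filter Ordinal

theorem sc_top {X : Type} [TopologicalSpace X] [SequentialSpace X] (A : Set X) :
    sc A ω₁ = closure A := by
  have hlim : Order.IsSuccLimit (ω₁ : Ordinal.{0}) := Cardinal.isSuccLimit_omega 1
  refine Set.Subset.antisymm (sc_cl A ω₁) (closure_minimal ?_ ?_)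
  · have h := sc_mono A (α := 0) (β := ω₁) bot_le
    rwa [sc_zero] at h
  · refine IsSeqClosed.isClosed ?_
    intro z a hz ha
    have h1 : ∀ i, ∃ β < (ω₁ : Ordinal.{0}), z i ∈ sc A β := by
      intro i
      have := hz i
      rw [sc_limit A _ hlim] at this
      exact this
    choose β hβ hzβ using h1
    have hsup : (⨆ i, β i) < (ω₁ : Ordinal.{0}) := Ordinal.iSup_lt_omega_one hβ
    have h2 : ∀ i, z i ∈ sc A (⨆ i, β i) := fun i => sc_mono A (Ordinal.le_iSup β i) (hzβ i)
    have h3 : a ∈ sc A ((⨆ i, β i) + 1) := by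
      rw [sc_add_one]
      exact ⟨z, h2, ha⟩
    have h4 : (⨆ i, β i) + 1 ≤ (ω₁ : Ordinal.{0}) := Order.add_one_le_of_lt hsup
    exact sc_mono A h4 h3

end Pool.Agent.ASG
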