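import Pool.Agent.ASG.Ind
import Pool.Agent.ASG.ScTop

set_option autoImplicit false

/-!
ASG-Ord. The sequential order of discrete and of Frechet-Urysohn spaces, and of countable `k_ω`
groups: `0` or `ω₁`.
-/

namespace Pool.Agent.ASG

open Set Topology Filter Ordinal

theorem ord_dis {X : Type} [TopologicalSpace X] [DiscreteTopology X] : seqOrder X = 0 := by
  have h : (0 : Ordinal.{0}) ∈ {α : Ordinal.{0} | ∀ A : Set X, sc A α = closure A} := by
    intro A
    rw [sc_zero, closure_discrete]
  exact le_antisymm (csInf_le' h) zero_le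

theorem ord_fu {X : Type} [TopologicalSpace X] [FrechetUrysohnSpace X] :
    seqOrder X = 0 ∨ seqOrder X = 1 := by
  have h : (1 : Ordinal.{0}) ∈ {α : Ordinal.{0} | ∀ A : Set X, sc A α = closure A} := by
    intro A
    have h1 := sc_add_one A 0
    rw [zero_add, sc_zero, seqClosure_eq_closure] at h1
    exact h1
  exact Order.le_one_iff.1 (csInf_le' h)

theorem ord_kom {G : Type} [Group G] [TopologicalSpace G] [IsTopologicalGroup G] [T2Space G]
    [Countable G] [SequentialSpace G] (h : IsKOmega G) : seqOrder G = 0 ∨ seqOrder G = ω₁ := by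
  by_cases hd : IsOpen ({1} : Set G)
  · have : DiscreteTopology G := discreteTopology_of_isOpen_singleton_one hd
    exact Or.inl ord_dis
  · right
    have h1 : ω₁ ∈ {α : Ordinal.{0} | ∀ A : Set G, sc A α = closure A} := fun A => sc_top A
    refine le_antisymm (csInf_le' h1) (le_csInf ⟨_, h1⟩ fun α hα => ?_)
    by_contra hlt
    push Not at hlt
    obtain ⟨A, hA1, _, hA3⟩ := ind hd h α hlt ∅ isCompact_empty
    rw [hα A] at hA3
    exact hA3 hA1

end Pool.Agent.ASG
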