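import Pool.Agent.ASG.Defs

set_option autoImplicit false

/-!
ASG-SOne. The first alternative of the dichotomy contradicts a fan. Only Mathlib + Defs.

A transversal of the fan is chosen along the sets `V i`; a neighbourhood of `1` avoiding it gives a contradiction.
-/

namespace Pool.Agent.ASG

open Set Topology Filter

theorem s_one {G : Type*} [Group G] [TopologicalSpace G] [IsTopologicalGroup G] [T2Space G]
    {h y : ℕ → ℕ → G} (hy : Fan y) (g : G) {V : ℕ → Set (ℕ × ℕ × ℕ)} (hV : ∀ i, Big (V i))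
    (hO : ∀ O : Set G, IsOpen O → g ∈ O →
      ∃ i, V i ⊆ (fun t : ℕ × ℕ × ℕ => h t.1 t.2.1 * y t.1 t.2.2) ⁻¹' O) : False := by
  have hN : ∀ i k : ℕ, ∃ n, k < n ∧ ∃ᶠ m in atTop, ∃ᶠ j in atTop, (n, m, j) ∈ V i := by
    intro i k
    obtain ⟨n, hn, h'⟩ := Filter.frequently_atTop'.1 (hV i) k
    exact ⟨n, hn, h'⟩
  choose N hN1 hN2 using hN
  let n : ℕ → ℕ := fun i => Nat.rec (N 0 0) (fun i k => N (i + 1) k) i
  have hn1 : ∀ i, n i < n (i + 1) := fun i => hN1 (i + 1) (n i)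
  have hn : StrictMono n := strictMono_nat_of_lt_succ hn1
  have hn2 : ∀ i, ∃ᶠ m in atTop, ∃ᶠ j in atTop, (n i, m, j) ∈ V i := by
    intro i
    cases i with
    | zero => exact hN2 0 0
    | succ i => exact hN2 (i + 1) (n i)
  have hm : ∀ i, ∃ m, ∃ᶠ j in atTop, (n i, m, j) ∈ V i := fun i => (hn2 i).exists
  choose m hm' using hm
  have hj : ∀ i, ∃ j, (n i, m i, j) ∈ V i := fun i => (hm' i).exists
  choose j hj' using hj
  obtain ⟨W, hW, hW1, hWn⟩ := hy.trans n j hn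
  have hcont : Continuous (fun p : G × G => p.1⁻¹ * p.2) := by fun_prop
  have hWm : (fun p : G × G => p.1⁻¹ * p.2) ⁻¹' W ∈ 𝓝 ((1 : G), (1 : G)) := by
    apply (hW.preimage hcont).mem_nhds
    simpa using hW1
  rw [nhds_prod_eq, Filter.mem_prod_iff] at hWm
  obtain ⟨A, hA, B, hB, hAB⟩ := hWm
  obtain ⟨C, hC, hCc, hCs⟩ := exists_mem_nhds_isClosed_subset (Filter.inter_mem hA hB)
  have hU1 : (1 : G) ∈ interior C := mem_interior_iff_mem_nhds.2 hC
  have hclos : closure (interior C) ⊆ C := closure_minimal interior_subset hCc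
  have hOo : IsOpen ((fun x : G => g⁻¹ * x) ⁻¹' interior C) :=
    isOpen_interior.preimage (by fun_prop)
  obtain ⟨i, hi⟩ := hO ((fun x : G => g⁻¹ * x) ⁻¹' interior C) hOo (by simpa using hU1)
  have h1 : ∀ k, (n i, m i, k) ∈ V i → g⁻¹ * (h (n i) (m i) * y (n i) k) ∈ interior C :=
    fun k hk => hi hk
  have h2 : g⁻¹ * h (n i) (m i) ∈ closure (interior C) := by
    refine mem_closure_of_frequently_of_tendsto ((hm' i).mono h1) ?_
    have h3 : Tendsto (fun k => g⁻¹ * (h (n i) (m i) * y (n i) k)) atTop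
        (𝓝 (g⁻¹ * (h (n i) (m i) * 1))) :=
      ((hy.lim (n i)).const_mul (h (n i) (m i))).const_mul g⁻¹
    rwa [mul_one] at h3
  have h4 : g⁻¹ * (h (n i) (m i) * y (n i) (j i)) ∈ interior C := h1 (j i) (hj' i)
  have h5 : (g⁻¹ * h (n i) (m i))⁻¹ * (g⁻¹ * (h (n i) (m i) * y (n i) (j i))) ∈ W :=
    hAB (Set.mk_mem_prod (hCs (hclos h2)).1 (hCs (interior_subset h4)).2)
  have h6 : (g⁻¹ * h (n i) (m i))⁻¹ * (g⁻¹ * (h (n i) (m i) * y (n i) (j i))) = y (n i) (j i) := by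
    group
  rw [h6] at h5
  exact hWn i h5

end Pool.Agent.ASG
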