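import Pool.Agent.ASG.STwoA
import Pool.Agent.ASG.Idx

set_option autoImplicit false

/-!
ASG-STwo. The second alternative of the dichotomy contradicts a net of closed discrete sets. Uses `s_two_a`, `idx`.

The points `h n m * y n (φ n m)`, `m ≥ m0 n`, different from `1` have `1` in their closure; a
sequence of them which converges to a point outside must have first indices that tend to infinity,
hence it almost avoids every `B k`.
-/

namespace Pool.Agent.ASG

open Set Topology Filter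

private theorem cd_seq {X : Type*} [TopologicalSpace X] {f : ℕ → X} (hinj : Function.Injective f)
    (hcd : CD (range f)) (g : X) : ∃ U ∈ 𝓝 g, ∀ᶠ m in atTop, f m ∉ U := by
  obtain ⟨U, hU, hfin⟩ := hcd g
  refine ⟨U, hU, ?_⟩
  have h1 : {m | f m ∈ U}.Finite := by
    refine (hfin.preimage (f := f) hinj.injOn).subset ?_
    intro m hm
    exact ⟨hm, mem_range_self m⟩
  have h2 := h1.eventually_cofinite_notMem
  rw [Nat.cofinite_eq_atTop] at h2
  exact h2

private theorem fin_of_ev {X : Type*} {c : ℕ → X} {P : X → Prop} (h : ∀ᶠ k in atTop, ¬ P (c k)) :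
    (range c ∩ {x | P x}).Finite := by
  obtain ⟨K, hK⟩ := eventually_atTop.1 h
  refine ((Set.finite_lt_nat K).image c).subset ?_
  rintro _ ⟨⟨k, rfl⟩, hk⟩
  refine ⟨k, ?_, rfl⟩
  by_contra hk2
  exact hK k (not_lt.1 hk2) hk

theorem s_two {G : Type*} [Group G] [TopologicalSpace G] [IsTopologicalGroup G] [T2Space G]
    [SequentialSpace G] {h y : ℕ → ℕ → G} (hh : Net h) (hy : ∀ n, Tendsto (y n) atTop (𝓝 1))
    {B : ℕ → Set (ℕ × ℕ × ℕ)} (hB : ∀ k, ¬ Big (B k))
    (hcatch : ∀ g : G, ∀ C : Set (ℕ × ℕ × ℕ),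
      ConvTo (fun t : ℕ × ℕ × ℕ => h t.1 t.2.1 * y t.1 t.2.2) C g → ∃ k, (C ∩ B k).Infinite) :
    False := by
  obtain ⟨m0, φ, hφ, hav⟩ := s_two_a hB
  have hylim : ∀ n, Tendsto (fun m => y n (φ n m)) atTop (𝓝 1) := fun n =>
    (hy n).comp (tendsto_atTop_mono (hφ n) tendsto_id)
  set A : Set G := {a | ∃ n m, m0 n ≤ m ∧ a = h n m * y n (φ n m)} \ {1} with hA
  -- the point `1` is in the closure
  have hcl : (1 : G) ∈ closure A := by
    rw [mem_closure_iff]
    intro O hO h1
    obtain ⟨U, hU, hU1, hUU⟩ := exists_open_nhds_one_split (hO.mem_nhds h1)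
    obtain ⟨n, hn⟩ := hh.small U hU hU1
    have h2 : ∀ᶠ m in atTop, y n (φ n m) ∈ U := hylim n (hU.mem_nhds hU1)
    have h3 : ∃ᶠ m in atTop, h n m * y n (φ n m) ≠ 1 := by
      intro h4
      have h5 : Tendsto (h n) atTop (𝓝 1) := by
        have h6 : Tendsto (fun m => (y n (φ n m))⁻¹) atTop (𝓝 1) := by
          have h7 := (hylim n).inv
          rwa [inv_one] at h7
        refine h6.congr' ?_
        filter_upwards [h4] with m hm
        rw [not_not] at hm
        exact (eq_inv_of_mul_eq_one_left hm).symm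
      obtain ⟨V, hV, hV2⟩ := cd_seq (hh.inj n) (hh.cd n) 1
      obtain ⟨m, hm1, hm2⟩ := (hV2.and (h5 hV)).exists
      exact hm1 hm2
    obtain ⟨m, ⟨hm1, hm2⟩, hm3⟩ := ((h3.and_eventually h2).and_eventually
      (eventually_ge_atTop (m0 n))).exists
    exact ⟨h n m * y n (φ n m), hUU _ (hn m) _ hm2, ⟨n, m, hm3, rfl⟩, hm1⟩
  have hnc : ¬ IsSeqClosed A := by
    intro hs
    rw [hs.isClosed.closure_eq] at hcl
    exact hcl.2 rfl
  rw [IsSeqClosed] at hnc
  push Not at hnc
  obtain ⟨a, g, ha, hlim, hg⟩ := hnc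
  choose n m hm ha2 using fun k => (ha k).1
  -- the first indices tend to infinity
  have hn : Tendsto n atTop atTop := by
    rcases idx n m with h | ⟨n0, ψ, hψ, hn, ⟨m1, hm1⟩ | hm1⟩
    · exact h
    · exfalso
      have h1 : ∀ i, a (ψ i) = h n0 m1 * y n0 (φ n0 m1) := by
        intro i
        rw [ha2 (ψ i), hn i, hm1 i]
      have h2 : Tendsto (fun i => a (ψ i)) atTop (𝓝 g) := hlim.comp hψ.tendsto_atTop
      have h3 : Tendsto (fun i => a (ψ i)) atTop (𝓝 (a (ψ 0))) := by
        refine tendsto_const_nhds.congr fun i => ?_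
        rw [h1 i, h1 0]
      rw [tendsto_nhds_unique h2 h3] at hg
      exact hg (ha _)
    · exfalso
      have h2 : Tendsto (fun i => a (ψ i)) atTop (𝓝 g) := hlim.comp hψ.tendsto_atTop
      have h3 : Tendsto (fun i => y n0 (φ n0 (m (ψ i)))) atTop (𝓝 1) := (hylim n0).comp hm1
      have h4 : Tendsto (fun i => h n0 (m (ψ i))) atTop (𝓝 g) := by
        have h5 := h2.mul h3.inv
        rw [inv_one, mul_one] at h5
        refine h5.congr fun i => ?_
        rw [ha2 (ψ i), hn i, mul_inv_cancel_right]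
      obtain ⟨V, hV, hV2⟩ := cd_seq (hh.inj n0) (hh.cd n0) g
      obtain ⟨i, hi1, hi2⟩ := ((hm1.eventually hV2).and (h4 hV)).exists
      exact hi1 hi2
  set c : ℕ → ℕ × ℕ × ℕ := fun k => (n k, m k, φ (n k) (m k)) with hc
  have hinf : (range c).Infinite := by
    intro hfin
    obtain ⟨b, hb⟩ := (hfin.image Prod.fst).bddAbove
    obtain ⟨k, hk⟩ := (hn.eventually_gt_atTop b).exists
    have h1 : n k ≤ b := hb ⟨c k, mem_range_self k, rfl⟩
    omega
  obtain ⟨k', hk'⟩ := hcatch g (range c) ⟨hinf, fun O hO hgO => by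
    have h1 : ∀ᶠ k in atTop, ¬ (fun t : ℕ × ℕ × ℕ => ¬ (h t.1 t.2.1 * y t.1 t.2.2 ∈ O)) (c k) := by
      filter_upwards [hlim (hO.mem_nhds hgO)] with k hk
      rw [mem_preimage, ha2 k] at hk
      exact not_not.2 hk
    exact fin_of_ev h1⟩
  apply hk'
  have h1 : ∀ᶠ k in atTop, ¬ (fun t : ℕ × ℕ × ℕ => t ∈ B k') (c k) := by
    filter_upwards [hn.eventually (hav k')] with k hk
    exact hk (m k) (hm k)
  exact fin_of_ev h1

end Pool.Agent.ASG
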