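import Pool.Agent.ASG.Dich
import Pool.Agent.ASG.Comp
import Pool.Agent.ASG.KOm
import Pool.Agent.ASG.MkFan
import Pool.Agent.ASG.SOne
import Pool.Agent.ASG.STwo
import Pool.Agent.ASG.FOne
import Pool.Agent.ASG.FTwo
import Pool.Agent.ASG.AnMet
import Pool.Agent.ASG.AnKom
import Pool.Agent.ASG.Ord

set_option autoImplicit false

/-!
# Countable sequential groups with analytic topologies: assembly (project ASG, MP_a9e3cf_lc)

A countable sequential Hausdorff group has an analytic topology if and only if it is `k_ω` or metrizable.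
-/

namespace Pool.Agent.ASG

open Set Topology Filter Ordinal

/-- small sets with infinite closed discrete subsets give a net of infinite closed discrete sets -/
private theorem mk_net {G : Type*} [Group G] [TopologicalSpace G] {V : ℕ → Set G}
    (hV : ∀ i, NotC (V i)) (hO : ∀ O : Set G, IsOpen O → 1 ∈ O → ∃ i, V i ⊆ id ⁻¹' O) :
    ∃ h : ℕ → ℕ → G, Net h := by
  choose D hDV hDi hDc using hV
  refine ⟨fun n m => ((hDi n).natEmbedding (D n) m : G), fun n => ?_, fun n z => ?_, ?_⟩
  · exact Subtype.val_injective.comp ((hDi n).natEmbedding (D n)).injective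
  · obtain ⟨U, hU, hf⟩ := hDc n z
    refine ⟨U, hU, hf.subset ?_⟩
    rintro _ ⟨hx, m, rfl⟩
    exact ⟨hx, ((hDi n).natEmbedding (D n) m).2⟩
  · intro O hOo h1
    obtain ⟨n, hn⟩ := hO O hOo h1
    exact ⟨n, fun m => hn (hDV n ((hDi n).natEmbedding (D n) m).2)⟩

theorem forward {G : Type} [Group G] [TopologicalSpace G] [IsTopologicalGroup G] [T2Space G]
    [Countable G] [SequentialSpace G] (ha : IsAnalytic G) :
    IsKOmega G ∨ TopologicalSpace.MetrizableSpace G := by
  obtain ⟨f, hf, hr⟩ := ha
  rcases dich hf hr (id : G → G) 1 NotC with ⟨V, hV, hO⟩ | ⟨V, hV, hC⟩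
  · obtain ⟨h, hh⟩ := mk_net hV hO
    by_cases hF : FrechetUrysohnSpace G
    · right
      by_cases hd : IsOpen ({1} : Set G)
      · have : DiscreteTopology G := discreteTopology_of_isOpen_singleton_one hd
        infer_instance
      · rcases dich hf hr (id : G → G) 1 (fun V => (interior (closure V)).Nonempty) with
          ⟨V', hV', hO'⟩ | ⟨V', hV', hC'⟩
        · exact f_one hV' hO'
        · exact (f_two hd (fun i => not_nonempty_iff_eq_empty.1 (hV' i)) hC').elim
    · exfalso
      obtain ⟨y, hy⟩ := mk_fan hF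
      by_cases h1 : ∃ g : G, ∃ W : ℕ → Set (ℕ × ℕ × ℕ), (∀ i, Big (W i)) ∧
          ∀ O : Set G, IsOpen O → g ∈ O →
            ∃ i, W i ⊆ (fun t : ℕ × ℕ × ℕ => h t.1 t.2.1 * y t.1 t.2.2) ⁻¹' O
      · obtain ⟨g, W, hW, hWO⟩ := h1
        exact s_one hy g hW hWO
      · have h2 : ∀ g : G, ∃ W : ℕ → Set (ℕ × ℕ × ℕ), (∀ i, ¬ Big (W i)) ∧
            ∀ C : Set (ℕ × ℕ × ℕ), ConvTo (fun t : ℕ × ℕ × ℕ => h t.1 t.2.1 * y t.1 t.2.2) C g →
              ∃ i, (C ∩ W i).Infinite := by
          intro g
          rcases dich hf hr (fun t : ℕ × ℕ × ℕ => h t.1 t.2.1 * y t.1 t.2.2) g Big with h3 | h3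
          · exact (h1 ⟨g, h3⟩).elim
          · exact h3
        choose B hB hBC using h2
        obtain ⟨e, he⟩ := exists_surjective_nat (G × ℕ)
        refine s_two hh hy.lim (B := fun k => B (e k).1 (e k).2) (fun k => hB _ _) ?_
        intro g C hCg
        obtain ⟨i, hi⟩ := hBC g C hCg
        obtain ⟨k, hk⟩ := he (g, i)
        exact ⟨k, by simpa [hk] using hi⟩
  · left
    exact kom (fun i => comp (hV i)) hC

theorem main (G : Type) [Group G] [TopologicalSpace G] [IsTopologicalGroup G] [T2Space G]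
    [Countable G] [SequentialSpace G] :
    IsAnalytic G ↔ (IsKOmega G ∨ TopologicalSpace.MetrizableSpace G) := by
  refine ⟨forward, ?_⟩
  rintro (h | h)
  · exact an_kom h
  · exact an_met

theorem main_ord (G : Type) [Group G] [TopologicalSpace G] [IsTopologicalGroup G] [T2Space G]
    [Countable G] [SequentialSpace G] (h : IsAnalytic G) :
    seqOrder G = 0 ∨ seqOrder G = 1 ∨ seqOrder G = ω₁ := by
  rcases forward h with h | h
  · rcases ord_kom h with h | h
    · exact Or.inl h
    · exact Or.inr (Or.inr h)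
  · rcases ord_fu (X := G) with h | h
    · exact Or.inl h
    · exact Or.inr (Or.inl h)

end Pool.Agent.ASG
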