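import Pool.Agent.ASG.Defs

set_option autoImplicit false

/-!
# Iterated sequential closures and the sequential order (project ASG, MP_a9e3cf_lc)
-/

namespace Pool.Agent.ASG

open Set Topology Filter

/-- the iterated sequential closures: `A` for `0`, limits of sequences at successors, unions at limits -/
noncomputable def sc {X : Type} [TopologicalSpace X] (A : Set X) (α : Ordinal.{0}) : Set X :=
  Ordinal.limitRecOn α A (fun _ S => seqClosure S) (fun α _ S => {x | ∃ β, ∃ h : β < α, x ∈ S β h})

/-- the sequential order of a space -/
noncomputable def seqOrder (X : Type) [TopologicalSpace X] : Ordinal.{0} :=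
  sInf {α | ∀ A : Set X, sc A α = closure A}

theorem sc_zero {X : Type} [TopologicalSpace X] (A : Set X) : sc A 0 = A := by
  simp [sc, Ordinal.limitRecOn_zero]

theorem sc_add_one {X : Type} [TopologicalSpace X] (A : Set X) (α : Ordinal.{0}) :
    sc A (α + 1) = seqClosure (sc A α) := by
  simp [sc, Ordinal.limitRecOn_add_one]

theorem sc_limit {X : Type} [TopologicalSpace X] (A : Set X) (α : Ordinal.{0})
    (h : Order.IsSuccLimit α) : sc A α = {x | ∃ β < α, x ∈ sc A β} := by
  simp only [sc]
  rw [Ordinal.limitRecOn_limit _ _ _ _ h]
  ext x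
  simp

end Pool.Agent.ASG
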