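import Pool.Agent.ASG.Defs

set_option autoImplicit false

/-!
ASG-STwoA. A diagonal choice avoiding countably many small subsets of `ℕ ^ 3`.  For every `n` the
number `m0 n` and the values `φ n m` are chosen so as to avoid all sets `B k`, `k < n`, of which the
section at `n` is small.
-/

namespace Pool.Agent.ASG

open Set Topology Filter

theorem s_two_a {B : ℕ → Set (ℕ × ℕ × ℕ)} (hB : ∀ k, ¬ Big (B k)) :
    ∃ (m0 : ℕ → ℕ) (φ : ℕ → ℕ → ℕ), (∀ n m, m ≤ φ n m) ∧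
      ∀ k, ∀ᶠ n in atTop, ∀ m, m0 n ≤ m → (n, m, φ n m) ∉ B k := by
  have hQ : ∀ k, ∀ᶠ n in atTop, ∀ᶠ m in atTop, ∀ᶠ j in atTop, (n, m, j) ∉ B k := by
    intro k
    have h := hB k
    rw [Big, not_frequently] at h
    filter_upwards [h] with n hn
    rw [not_frequently] at hn
    filter_upwards [hn] with m hm
    rw [not_frequently] at hm
    exact hm
  have h1 : ∀ n, ∀ᶠ m in atTop, ∀ᶠ j in atTop, ∀ k ∈ Finset.range n,
      (∀ᶠ m in atTop, ∀ᶠ j in atTop, (n, m, j) ∉ B k) → (n, m, j) ∉ B k := by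
    intro n
    have h2 : ∀ᶠ m in atTop, ∀ k ∈ Finset.range n, ∀ᶠ j in atTop,
        ((∀ᶠ m in atTop, ∀ᶠ j in atTop, (n, m, j) ∉ B k) → (n, m, j) ∉ B k) := by
      rw [eventually_all_finset]
      intro k _
      by_cases hk : ∀ᶠ m in atTop, ∀ᶠ j in atTop, (n, m, j) ∉ B k
      · filter_upwards [hk] with m hm
        filter_upwards [hm] with j hj _
        exact hj
      · exact Eventually.of_forall (fun m => Eventually.of_forall (fun j hj => absurd hj hk))
    filter_upwards [h2] with m hm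
    rw [eventually_all_finset]
    exact hm
  have h2 : ∀ n, ∃ a, ∀ m, a ≤ m → ∀ᶠ j in atTop, ∀ k ∈ Finset.range n,
      (∀ᶠ m in atTop, ∀ᶠ j in atTop, (n, m, j) ∉ B k) → (n, m, j) ∉ B k := by
    intro n
    obtain ⟨a, ha⟩ := eventually_atTop.1 (h1 n)
    exact ⟨a, fun m hm => ha m hm⟩
  choose m0 hm0 using h2
  have h3 : ∀ n m, ∃ j, m ≤ j ∧ (m0 n ≤ m → ∀ k ∈ Finset.range n,
      (∀ᶠ m in atTop, ∀ᶠ j in atTop, (n, m, j) ∉ B k) → (n, m, j) ∉ B k) := by
    intro n m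
    by_cases hm : m0 n ≤ m
    · obtain ⟨j, hj, hj2⟩ := ((hm0 n m hm).and (eventually_ge_atTop m)).exists
      exact ⟨j, hj2, fun _ => hj⟩
    · exact ⟨m, le_rfl, fun h => absurd h hm⟩
  choose φ hφ1 hφ2 using h3
  refine ⟨m0, φ, hφ1, ?_⟩
  intro k
  filter_upwards [hQ k, eventually_gt_atTop k] with n hn hkn m hm
  exact hφ2 n m hm k (Finset.mem_range.2 hkn) hn

end Pool.Agent.ASG
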