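import Pool.Agent.ASG.SDefs

set_option autoImplicit false

/-!
ASG-Sc. Basic facts on the iterated sequential closures, by limit induction.
-/

namespace Pool.Agent.ASG

open Set Topology Filter

theorem sc_mono {X : Type} [TopologicalSpace X] (A : Set X) {α β : Ordinal.{0}} (h : α ≤ β) :
    sc A α ⊆ sc A β := by
  induction β using Ordinal.limitRecOn with
  | zero =>
    have h1 : α = 0 := le_antisymm h (zero_le)
    rw [h1]
  | add_one β ih =>
    rcases h.lt_or_eq with h1 | h1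
    · rw [sc_add_one]
      exact (ih (Order.lt_add_one_iff.1 h1)).trans subset_seqClosure
    · rw [h1]
  | limit β hβ ih =>
    rcases h.lt_or_eq with h1 | h1
    · intro x hx
      rw [sc_limit A β hβ]
      exact ⟨α, h1, hx⟩
    · rw [h1]

theorem sc_cl {X : Type} [TopologicalSpace X] (A : Set X) (α : Ordinal.{0}) :
    sc A α ⊆ closure A := by
  induction α using Ordinal.limitRecOn with
  | zero =>
    rw [sc_zero]
    exact subset_closure
  | add_one α ih =>
    rw [sc_add_one]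
    exact seqClosure_subset_closure.trans (closure_minimal ih isClosed_closure)
  | limit α hα ih =>
    rw [sc_limit A α hα]
    rintro x ⟨β, hβ, hx⟩
    exact ih β hβ hx

theorem sc_loc {X : Type} [TopologicalSpace X] {A D O : Set X} (hO : IsOpen O)
    (h : A ∩ O ⊆ D) (γ : Ordinal.{0}) : sc A γ ∩ O ⊆ sc D γ := by
  induction γ using Ordinal.limitRecOn with
  | zero =>
    rw [sc_zero, sc_zero]
    exact h
  | add_one γ ih =>
    rw [sc_add_one, sc_add_one]
    rintro x ⟨⟨u, hu, hux⟩, hxO⟩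
    obtain ⟨N, hN⟩ := eventually_atTop.1 (hux.eventually (hO.mem_nhds hxO))
    refine ⟨fun n => u (n + N), fun n => ih ⟨hu _, hN _ (Nat.le_add_left N n)⟩, ?_⟩
    exact (tendsto_add_atTop_iff_nat N).2 hux
  | limit γ hγ ih =>
    rw [sc_limit A γ hγ, sc_limit D γ hγ]
    rintro x ⟨⟨β, hβ, hx⟩, hxO⟩
    exact ⟨β, hβ, ih β hβ ⟨hx, hxO⟩⟩

theorem sc_mul {G : Type} [Group G] [TopologicalSpace G] [IsTopologicalGroup G] (g : G) (A : Set G)
    (γ : Ordinal.{0}) (x : G) (h : g * x ∈ sc ((fun y => g * y) '' A) γ) : x ∈ sc A γ := by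
  induction γ using Ordinal.limitRecOn generalizing x with
  | zero =>
    rw [sc_zero] at h ⊢
    obtain ⟨y, hy, hyx⟩ := h
    have h1 : y = x := mul_left_cancel hyx
    rwa [← h1]
  | add_one γ ih =>
    rw [sc_add_one] at h ⊢
    obtain ⟨u, hu, hux⟩ := h
    refine ⟨fun n => g⁻¹ * u n, fun n => ih _ ?_, ?_⟩
    · rw [mul_inv_cancel_left]
      exact hu n
    · have h1 := hux.const_mul g⁻¹
      rwa [inv_mul_cancel_left] at h1
  | limit γ hγ ih =>
    rw [sc_limit _ γ hγ] at h ⊢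
    obtain ⟨β, hβ, hx⟩ := h
    exact ⟨β, hβ, ih β hβ x hx⟩

theorem sc_min {X : Type} [TopologicalSpace X] {A : Set X} {γ : Ordinal.{0}} {x : X}
    (h : x ∈ sc A γ) (hx : x ∉ A) : ∃ δ < γ, x ∉ sc A δ ∧ x ∈ seqClosure (sc A δ) := by
  induction γ using Ordinal.limitRecOn with
  | zero =>
    rw [sc_zero] at h
    exact absurd h hx
  | add_one γ ih =>
    by_cases h1 : x ∈ sc A γ
    · obtain ⟨δ, hδ, h2⟩ := ih h1
      exact ⟨δ, hδ.trans (Order.lt_add_one_iff.2 le_rfl), h2⟩
    · rw [sc_add_one] at h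
      exact ⟨γ, Order.lt_add_one_iff.2 le_rfl, h1, h⟩
  | limit γ hγ ih =>
    rw [sc_limit A γ hγ] at h
    obtain ⟨β, hβ, hxβ⟩ := h
    obtain ⟨δ, hδ, h2⟩ := ih β hβ hxβ
    exact ⟨δ, hδ.trans hβ, h2⟩

end Pool.Agent.ASG
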