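import Pool.Agent.ASG.Sc

set_option autoImplicit false

/-!
ASG-Step. The induction step for sets of large sequential rank in `k_ω` groups: translates of sets
`A k` along a sequence `x k → 1`, `1` gets a rank larger than infinitely many of the `a k`.
-/

namespace Pool.Agent.ASG

open Set Topology Filter

private theorem img_closed {G : Type} [Group G] [TopologicalSpace G] [IsTopologicalGroup G]
    (g : G) (S : Set G) : IsClosed ((fun y => g * y) '' closure S) :=
  (Homeomorph.mulLeft g).isClosedMap _ isClosed_closure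

private theorem seq_closed {G : Type} [Group G] [TopologicalSpace G] [T2Space G]
    {x : ℕ → G} (hx : Tendsto x atTop (𝓝 1)) (S : Set ℕ) : IsClosed (insert 1 (x '' S)) := by
  classical
  have h1 : Tendsto (fun k => if k ∈ S then x k else 1) atTop (𝓝 1) := by
    refine tendsto_def.2 fun O hO => ?_
    filter_upwards [hx hO] with k hk
    by_cases hkS : k ∈ S
    · simpa [hkS] using hk
    · simpa [hkS] using mem_of_mem_nhds hO
  have h2 := h1.isCompact_insert_range.isClosed
  have h3 : insert 1 (x '' S) = insert 1 (range (fun k => if k ∈ S then x k else 1)) := by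
    ext g
    constructor
    · rintro (rfl | ⟨k, hk, rfl⟩)
      · exact Or.inl rfl
      · exact Or.inr ⟨k, by simp [hk]⟩
    · rintro (rfl | ⟨k, rfl⟩)
      · exact Or.inl rfl
      · by_cases hkS : k ∈ S
        · exact Or.inr ⟨k, hkS, by simp [hkS]⟩
        · exact Or.inl (by simp [hkS])
  rw [h3]
  exact h2

private theorem F_closed {G : Type} [Group G] [TopologicalSpace G] [IsTopologicalGroup G] [T2Space G]
    {K : ℕ → Set G} (hK : ∀ n, IsCompact (K n)) (hmon : Monotone K)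
    (hdet : ∀ A : Set G, (∀ n, IsClosed (A ∩ K n)) → IsClosed A)
    {x : ℕ → G} (hx : Tendsto x atTop (𝓝 1)) {A : ℕ → Set G}
    (h1 : ∀ k, 1 ∈ closure (A k))
    (h3 : ∀ k, ∀ z ∈ closure (A k), z ≠ 1 → x k * z ∉ K k) (S : Set ℕ) :
    IsClosed (insert 1 (⋃ k ∈ S, (fun y => x k * y) '' closure (A k))) := by
  refine hdet _ fun n => ?_
  have e : insert 1 (⋃ k ∈ S, (fun y => x k * y) '' closure (A k)) ∩ K n =
      (insert 1 (x '' (S ∩ {k | n ≤ k})) ∪
        ⋃ k ∈ {k | k ∈ S ∧ k < n}, (fun y => x k * y) '' closure (A k)) ∩ K n := by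
    ext g
    constructor
    · rintro ⟨rfl | hg, hgK⟩
      · exact ⟨Or.inl (Or.inl rfl), hgK⟩
      · refine ⟨?_, hgK⟩
        obtain ⟨k, hk, y, hy, rfl⟩ := mem_iUnion₂.1 hg
        rcases lt_or_ge k n with hkn | hkn
        · exact Or.inr (mem_iUnion₂.2 ⟨k, ⟨hk, hkn⟩, y, hy, rfl⟩)
        · have hy1 : y = 1 := by
            by_contra hne
            exact h3 k y hy hne (hmon hkn hgK)
          subst hy1
          exact Or.inl (Or.inr ⟨k, ⟨hk, hkn⟩, by simp⟩)
    · rintro ⟨(rfl | ⟨k, ⟨hk, hkn⟩, rfl⟩) | hg, hgK⟩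
      · exact ⟨Or.inl rfl, hgK⟩
      · exact ⟨Or.inr (mem_iUnion₂.2 ⟨k, hk, 1, h1 k, by simp⟩), hgK⟩
      · obtain ⟨k, ⟨hk, hkn⟩, y, hy, rfl⟩ := mem_iUnion₂.1 hg
        exact ⟨Or.inr (mem_iUnion₂.2 ⟨k, hk, y, hy, rfl⟩), hgK⟩
  rw [e]
  refine ((seq_closed hx _).union ?_).inter (hK n).isClosed
  exact ((finite_lt_nat n).subset (fun k hk => hk.2)).isClosed_biUnion fun k _ => img_closed _ _

theorem step {G : Type} [Group G] [TopologicalSpace G] [IsTopologicalGroup G] [T2Space G]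
    {K : ℕ → Set G} (hK : ∀ n, IsCompact (K n)) (hmon : Monotone K)
    (hdet : ∀ A : Set G, (∀ n, IsClosed (A ∩ K n)) → IsClosed A)
    (hseq : ∀ (x : ℕ → G) (a : G), Tendsto x atTop (𝓝 a) → ∃ n, ∀ i, x i ∈ K n)
    {x : ℕ → G} (hi : Function.Injective x) (hx : Tendsto x atTop (𝓝 1)) (hx1 : ∀ k, x k ≠ 1)
    {C : Set G} (hxC : ∀ k, x k ∉ C) {A : ℕ → Set G} {a : ℕ → Ordinal.{0}}
    (h1 : ∀ k, 1 ∈ closure (A k)) (h2 : ∀ k, 1 ∉ sc (A k) (a k))
    (h3 : ∀ k, ∀ z ∈ closure (A k), z ≠ 1 →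
      x k * z ∉ K k ∧ x k * z ∉ C ∧ x k * z ≠ 1 ∧ ∀ l, x k * z ≠ x l) :
    1 ∈ closure (⋃ k, (fun y => x k * y) '' A k) ∧
    (∀ z ∈ closure (⋃ k, (fun y => x k * y) '' A k), z ≠ 1 → z ∉ C) ∧
    ∀ γ, 1 ∈ sc (⋃ k, (fun y => x k * y) '' A k) γ → ∃ δ < γ, ∃ᶠ k in atTop, a k < δ := by
  have hF := F_closed hK hmon hdet hx h1 (fun k z hz hz1 => (h3 k z hz hz1).1)
  have hcl : closure (⋃ k, (fun y => x k * y) '' A k) ⊆
      insert 1 (⋃ k ∈ (univ : Set ℕ), (fun y => x k * y) '' closure (A k)) := by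
    refine closure_minimal ?_ (hF univ)
    intro g hg
    obtain ⟨k, y, hy, rfl⟩ := mem_iUnion.1 hg
    exact Or.inr (mem_iUnion₂.2 ⟨k, mem_univ _, y, subset_closure hy, rfl⟩)
  have hxk : ∀ k, x k ∈ closure (⋃ k, (fun y => x k * y) '' A k) := by
    intro k
    have h4 : x k * 1 ∈ closure ((fun y => x k * y) '' A k) :=
      image_closure_subset_closure_image (continuous_const_mul (x k)) ⟨1, h1 k, rfl⟩
    rw [mul_one] at h4
    exact closure_mono (subset_iUnion (fun k => (fun y => x k * y) '' A k) k) h4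
  refine ⟨isClosed_closure.mem_of_tendsto hx (Eventually.of_forall hxk), ?_, ?_⟩
  · intro z hz hz1
    rcases hcl hz with h | h
    · exact absurd h hz1
    · obtain ⟨k, -, y, hy, rfl⟩ := mem_iUnion₂.1 h
      by_cases hy1 : y = 1
      · subst hy1
        simpa using hxC k
      · exact (h3 k y hy hy1).2.1
  · intro γ hγ
    -- the claim on the ranks of the points `x k`
    have claim : ∀ (δ : Ordinal.{0}) (k : ℕ), x k ∈ sc (⋃ k, (fun y => x k * y) '' A k) δ →
        a k < δ := by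
      intro δ k hk
      have hxO : x k ∈ (insert 1 (⋃ l ∈ ({k}ᶜ : Set ℕ), (fun y => x l * y) '' closure (A l)))ᶜ := by
        rintro (h | h)
        · exact hx1 k h
        · obtain ⟨l, hl, y, hy, hxl⟩ := mem_iUnion₂.1 h
          have hxl' : x l * y = x k := hxl
          by_cases hy1 : y = 1
          · subst hy1
            rw [mul_one] at hxl'
            exact hl (hi hxl')
          · exact (h3 l y hy hy1).2.2.2 k hxl'
      have hsub : (⋃ k, (fun y => x k * y) '' A k) ∩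
          (insert 1 (⋃ l ∈ ({k}ᶜ : Set ℕ), (fun y => x l * y) '' closure (A l)))ᶜ ⊆
          (fun y => x k * y) '' A k := by
        rintro g ⟨hg, hgO⟩
        obtain ⟨l, y, hy, rfl⟩ := mem_iUnion.1 hg
        by_cases hl : l = k
        · subst hl
          exact ⟨y, hy, rfl⟩
        · exact (hgO (Or.inr (mem_iUnion₂.2 ⟨l, hl, y, subset_closure hy, rfl⟩))).elim
      have h4 := sc_loc (hF {k}ᶜ).isOpen_compl hsub δ ⟨hk, hxO⟩
      have h5 : (1 : G) ∈ sc (A k) δ := sc_mul (x k) (A k) δ 1 (by rwa [mul_one])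
      by_contra hlt
      exact h2 k (sc_mono (A k) (not_lt.1 hlt) h5)
    have h1A : (1 : G) ∉ ⋃ k, (fun y => x k * y) '' A k := by
      intro h
      obtain ⟨k, y, hy, hxy⟩ := mem_iUnion.1 h
      have hxy' : x k * y = 1 := hxy
      by_cases hy1 : y = 1
      · subst hy1
        rw [mul_one] at hxy'
        exact hx1 k hxy'
      · exact (h3 k y (subset_closure hy) hy1).2.2.1 hxy'
    obtain ⟨δ, hδ, h1δ, z, hz, hz1⟩ := sc_min hγ h1A
    refine ⟨δ, hδ, ?_⟩
    obtain ⟨n, hn⟩ := hseq z 1 hz1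
    rw [frequently_atTop]
    intro N
    have hD : IsClosed (⋃ k ∈ {k | k < max n N}, (fun y => x k * y) '' closure (A k)) :=
      (finite_lt_nat (max n N)).isClosed_biUnion fun k _ => img_closed _ _
    have h1D : (1 : G) ∉ ⋃ k ∈ {k | k < max n N}, (fun y => x k * y) '' closure (A k) := by
      intro h
      obtain ⟨k, -, y, hy, hxy⟩ := mem_iUnion₂.1 h
      have hxy' : x k * y = 1 := hxy
      by_cases hy1 : y = 1
      · subst hy1
        rw [mul_one] at hxy'
        exact hx1 k hxy'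
      · exact (h3 k y hy hy1).2.2.1 hxy'
    obtain ⟨i, hi'⟩ := (hz1.eventually (hD.isOpen_compl.mem_nhds h1D)).exists
    have hzne : z i ≠ 1 := fun h => h1δ (h ▸ hz i)
    rcases hcl (sc_cl _ _ (hz i)) with h | h
    · exact absurd h hzne
    · obtain ⟨k, -, y, hy, hxy⟩ := mem_iUnion₂.1 h
      have hxy' : x k * y = z i := hxy
      have hkN : max n N ≤ k := by
        by_contra hlt
        exact hi' (mem_iUnion₂.2 ⟨k, not_le.1 hlt, y, hy, hxy⟩)
      have hy1 : y = 1 := by
        by_contra hne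
        refine (h3 k y hy hne).1 ?_
        rw [hxy']
        exact hmon (le_trans (le_max_left _ _) hkN) (hn i)
      subst hy1
      rw [mul_one] at hxy'
      exact ⟨k, le_trans (le_max_right _ _) hkN, claim δ k (hxy' ▸ hz i)⟩

end Pool.Agent.ASG
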